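import Pool.Agent.K7.H25.SB.Stm

/-!
# Project SB, job MEL: Melzak's inequality
-/

set_option autoImplicit false

open scoped MeasureTheory ENNReal Topology InnerProductSpace
open MeasureTheory Set Filter Metric

namespace Pool.Agent.K7.H68.SB

open Pool.Agent.K7.H25.SB

lemma inner_tv {u t v : Pl} (hu : ‖u‖ = 1) (ht : ‖t‖ = 1) (hv : ‖v‖ = 1) (h : t + v = u) :
    ⟪t, v⟫_ℝ = -1 / 2 := by
  have h1 := norm_add_sq_real t v
  rw [h, hu, ht, hv] at h1
  linarith

lemma norm_comb {t v : Pl} (ht : ‖t‖ = 1) (hv : ‖v‖ = 1) (h : ⟪t, v⟫_ℝ = -1 / 2) (a b : ℝ) :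
    ‖a • t + b • v‖ ^ 2 = a ^ 2 + b ^ 2 - a * b := by
  rw [norm_add_sq_real, norm_smul, norm_smul, ht, hv, real_inner_smul_left,
    real_inner_smul_right, h, mul_one, mul_one, Real.norm_eq_abs, Real.norm_eq_abs, sq_abs, sq_abs]
  ring

theorem stMel : StMel := by
  intro q u t v z y s M hu ht hv htv hs hM
  have hi := inner_tv hu ht hv htv
  have key : dist y (q + (s + M) • u) ≤ dist y (q + s • t) + dist y (q + M • v) := by
    set e := q + (s + M) • u with he
    set p₁ := q + s • t with hp1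
    set p₂ := q + M • v with hp2
    set D := Real.sqrt (s ^ 2 + s * M + M ^ 2) with hD
    have hsq : ∀ x : Pl, ‖x‖ ^ 2 = s ^ 2 + s * M + M ^ 2 → ‖x‖ = D := by
      intro x hx
      rw [hD, ← hx, Real.sqrt_sq (norm_nonneg x)]
    have d12 : dist p₁ p₂ = D := by
      rw [dist_eq_norm]
      apply hsq
      have : p₁ - p₂ = s • t + (-M) • v := by rw [hp1, hp2]; module
      rw [this, norm_comb ht hv hi]
      ring
    have d1e : dist p₁ e = D := by
      rw [dist_eq_norm]
      apply hsq
      have : p₁ - e = (-M) • t + (-(s + M)) • v := by rw [hp1, he, ← htv]; module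
      rw [this, norm_comb ht hv hi]
      ring
    have d2e : dist e p₂ = D := by
      rw [dist_eq_norm]
      apply hsq
      have : e - p₂ = (s + M) • t + s • v := by rw [hp2, he, ← htv]; module
      rw [this, norm_comb ht hv hi]
      ring
    have hpt := EuclideanGeometry.mul_dist_le_mul_dist_add_mul_dist y p₁ e p₂
    rw [d12, d1e, d2e] at hpt
    have hD0 : 0 ≤ D := Real.sqrt_nonneg _
    rcases hD0.lt_or_eq with h | h
    · nlinarith [hpt]
    · have h0 : s ^ 2 + s * M + M ^ 2 = 0 := by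
        have := Real.sqrt_eq_zero (by positivity : (0:ℝ) ≤ s ^ 2 + s * M + M ^ 2) |>.1 h.symm
        exact this
      have hs0 : s = 0 := by nlinarith [mul_nonneg hs hM, sq_nonneg M, sq_nonneg s]
      have hM0 : M = 0 := by nlinarith [mul_nonneg hs hM, sq_nonneg M, sq_nonneg s]
      rw [he, hp1, hp2, hs0, hM0]
      simp
  calc dist z (q + (s + M) • u) ≤ dist z y + dist y (q + (s + M) • u) := dist_triangle _ _ _
    _ ≤ _ := by linarith

end Pool.Agent.K7.H68.SB
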