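import Pool.Agent.K7.H25.SB.Stm

/-!
# MP_8790b5_co, Q1, job TRI (helper68)

Three points in a compact connected set of the plane of finite length: the junction, with the case
of equality.
-/

set_option autoImplicit false

open scoped MeasureTheory ENNReal Topology InnerProductSpace
open MeasureTheory Set Filter Metric

namespace Pool.Agent.K7.H68.SB

open Pool.Agent.R154.Steiner Pool.Agent.K7.H25.SB

lemma arc_len {T : Set Pl} {x y : Pl} {γ : ℝ → Pl} {a b : ℝ} (h : IsArc T x y γ a b) :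
    ENNReal.ofReal (dist x y) ≤ μH[1] (γ '' Icc a b) := by
  refine H_conn (isPreconnected_Icc.image _ h.cont) ?_ ?_
  · exact ⟨a, ⟨le_rfl, h.le⟩, h.left⟩
  · exact ⟨b, ⟨h.le, le_rfl⟩, h.right⟩

lemma arc_cpt {T : Set Pl} {x y : Pl} {γ : ℝ → Pl} {a b : ℝ} (h : IsArc T x y γ a b) :
    IsCompact (γ '' Icc a b) := isCompact_Icc.image_of_continuousOn h.cont

lemma arc_split {T : Set Pl} {x y : Pl} {γ : ℝ → Pl} {a b c : ℝ} (h : IsArc T x y γ a b)
    (hc : c ∈ Icc a b) : γ '' Icc a c ∩ γ '' Icc c b ⊆ {γ c} := by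
  rintro _ ⟨⟨s, hs, rfl⟩, ⟨t, ht, hst⟩⟩
  have h1 := h.inj ⟨hc.1.trans ht.1, ht.2⟩ ⟨hs.1, hs.2.trans hc.2⟩ hst
  have h2 : s = c := le_antisymm hs.2 (h1 ▸ ht.1)
  rw [h2]; rfl

lemma add_le_of {A B C : Set Pl} {w : Pl} (hB : IsCompact B) (hAB : A ∩ B ⊆ {w})
    (hAC : A ⊆ C) (hBC : B ⊆ C) : μH[1] A + μH[1] B ≤ μH[1] C := by
  have h0 : AEDisjoint (μH[1] : Measure Pl) A B := measure_mono_null hAB (noAtom w)
  rw [← measure_union₀ hB.measurableSet.nullMeasurableSet h0]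
  exact measure_mono (union_subset hAC hBC)

lemma arc_seg {T : Set Pl} {x y : Pl} {γ : ℝ → Pl} {a b : ℝ} (h : IsArc T x y γ a b)
    (hle : μH[1] (γ '' Icc a b) ≤ ENNReal.ofReal (dist x y)) :
    γ '' Icc a b = segment ℝ x y := by
  have hsub : γ '' Icc a b ⊆ segment ℝ x y := by
    rintro _ ⟨c, hc, rfl⟩
    have hL := h.sub le_rfl hc.1 hc.2
    have hR := h.sub hc.1 hc.2 le_rfl
    have h1 := arc_len hL
    have h2 := arc_len hR
    have h3 : μH[1] (γ '' Icc a c) + μH[1] (γ '' Icc c b) ≤ μH[1] (γ '' Icc a b) :=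
      add_le_of (arc_cpt hR) (arc_split h hc) (image_mono (Icc_subset_Icc le_rfl hc.2))
        (image_mono (Icc_subset_Icc hc.1 le_rfl))
    have h4 : ENNReal.ofReal (dist (γ a) (γ c) + dist (γ c) (γ b)) ≤
        ENNReal.ofReal (dist x y) := by
      rw [ENNReal.ofReal_add dist_nonneg dist_nonneg]
      exact (add_le_add h1 h2).trans (h3.trans hle)
    rw [ENNReal.ofReal_le_ofReal_iff dist_nonneg, h.left, h.right] at h4
    rw [mem_segment_iff_wbtw, ← dist_add_dist_eq_iff]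
    exact le_antisymm h4 (dist_triangle _ _ _)
  refine Subset.antisymm hsub ?_
  intro w hw
  have hconn : IsPreconnected (γ '' Icc a b) := isPreconnected_Icc.image _ h.cont
  have hx : x ∈ γ '' Icc a b := ⟨a, ⟨le_rfl, h.le⟩, h.left⟩
  have hy : y ∈ γ '' Icc a b := ⟨b, ⟨h.le, le_rfl⟩, h.right⟩
  rw [segment_eq_image_lineMap] at hw
  obtain ⟨β, hβ, rfl⟩ := hw
  have hd : dist x (AffineMap.lineMap x y β : Pl) = β * dist x y := by
    rw [dist_left_lineMap, Real.norm_of_nonneg hβ.1]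
  obtain ⟨v, hv, hvd⟩ := hconn.intermediate_value hx hy
    (f := fun v => dist x v) (by fun_prop)
    (show dist x (AffineMap.lineMap x y β : Pl) ∈ Icc (dist x x) (dist x y) by
      rw [hd, dist_self]
      exact ⟨mul_nonneg hβ.1 dist_nonneg, mul_le_of_le_one_left dist_nonneg hβ.2⟩)
  have hv' := hsub hv
  rw [segment_eq_image_lineMap] at hv'
  obtain ⟨α, hα, rfl⟩ := hv'
  have hd' : dist x (AffineMap.lineMap x y α : Pl) = α * dist x y := by
    rw [dist_left_lineMap, Real.norm_of_nonneg hα.1]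
  have he : α * dist x y = β * dist x y := by
    rw [← hd, ← hd']; exact hvd
  rcases eq_or_ne x y with hxy | hxy
  · subst hxy
    rw [AffineMap.lineMap_same_apply]
    exact hx
  · have hpos : dist x y ≠ 0 := dist_ne_zero.mpr hxy
    have : α = β := mul_right_cancel₀ hpos he
    rw [← this]
    exact hv

theorem stTri : StTri := by
  intro K z p₁ p₂ hKc hK hfin hz hp₁ hp₂
  obtain ⟨γ, a, b, hγ⟩ := exists_arc hKc hK hp₁ hp₂ hfin
  obtain ⟨γ0, a0, b0, h0⟩ := exists_arc hKc hK hz hp₁ hfin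
  have hΓ : IsCompact (γ '' Icc a b) := arc_cpt hγ
  set Z : Set ℝ := Icc a0 b0 ∩ γ0 ⁻¹' (γ '' Icc a b) with hZ
  have hZc : IsCompact Z := by
    have : IsClosed Z := h0.cont.preimage_isClosed_of_isClosed isClosed_Icc hΓ.isClosed
    exact isCompact_Icc.of_isClosed_subset this inter_subset_left
  have hZne : Z.Nonempty := by
    refine ⟨b0, ⟨h0.le, le_rfl⟩, ?_⟩
    show γ0 b0 ∈ γ '' Icc a b
    rw [h0.right]
    exact ⟨a, ⟨le_rfl, hγ.le⟩, hγ.left⟩
  obtain ⟨c, hcZ, hcmin⟩ := hZc.exists_isLeast hZne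
  obtain ⟨⟨hac, hcb⟩, hcK⟩ := hcZ
  obtain ⟨s, hs, hsc⟩ := (show γ0 c ∈ γ '' Icc a b from hcK)
  have A0 : IsArc K (γ0 a0) (γ0 c) γ0 a0 c := h0.sub le_rfl hac hcb
  have A1 : IsArc K (γ a) (γ s) γ a s := hγ.sub le_rfl hs.1 hs.2
  have A2 : IsArc K (γ s) (γ b) γ s b := hγ.sub hs.1 hs.2 le_rfl
  rw [h0.left, ← hsc] at A0
  rw [hγ.left] at A1
  rw [hγ.right] at A2
  set y : Pl := γ s with hy
  set L0 : Set Pl := γ0 '' Icc a0 c with hL0
  set L1 : Set Pl := γ '' Icc a s with hL1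
  set L2 : Set Pl := γ '' Icc s b with hL2
  have hL1Γ : L1 ⊆ γ '' Icc a b := image_mono (Icc_subset_Icc le_rfl hs.2)
  have hL2Γ : L2 ⊆ γ '' Icc a b := image_mono (Icc_subset_Icc hs.1 le_rfl)
  have hL12 : L1 ∩ L2 ⊆ {y} := arc_split hγ hs
  have hL0Γ : L0 ∩ (L1 ∪ L2) ⊆ {y} := by
    rintro _ ⟨⟨t, ht, rfl⟩, hm⟩
    have hm' : γ0 t ∈ γ '' Icc a b := by
      rcases hm with hm | hm
      · exact hL1Γ hm
      · exact hL2Γ hm
    have h1 : c ≤ t := hcmin ⟨⟨ht.1, ht.2.trans hcb⟩, hm'⟩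
    have h2 : t = c := le_antisymm ht.2 h1
    rw [h2, ← hsc]; rfl
  have hK0 : L0 ⊆ K := by rintro _ ⟨t, ht, rfl⟩; exact A0.maps t ht
  have hK1 : L1 ⊆ K := by rintro _ ⟨t, ht, rfl⟩; exact A1.maps t ht
  have hK2 : L2 ⊆ K := by rintro _ ⟨t, ht, rfl⟩; exact A2.maps t ht
  have c0 : IsCompact L0 := arc_cpt A0
  have c1 : IsCompact L1 := arc_cpt A1
  have c2 : IsCompact L2 := arc_cpt A2
  have e0 : ENNReal.ofReal (dist z y) ≤ μH[1] L0 := arc_len A0
  have e1 : ENNReal.ofReal (dist y p₁) ≤ μH[1] L1 := by rw [dist_comm]; exact arc_len A1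
  have e2 : ENNReal.ofReal (dist y p₂) ≤ μH[1] L2 := arc_len A2
  have hU : μH[1] L0 + (μH[1] L1 + μH[1] L2) ≤ μH[1] (L0 ∪ (L1 ∪ L2)) := by
    have h1 : μH[1] L1 + μH[1] L2 ≤ μH[1] (L1 ∪ L2) :=
      add_le_of c2 hL12 subset_union_left subset_union_right
    have h2 : μH[1] L0 + μH[1] (L1 ∪ L2) ≤ μH[1] (L0 ∪ (L1 ∪ L2)) :=
      add_le_of (c1.union c2) hL0Γ subset_union_left subset_union_right
    exact (add_le_add le_rfl h1).trans h2
  have hUK : L0 ∪ (L1 ∪ L2) ⊆ K := union_subset hK0 (union_subset hK1 hK2)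
  have hsplit : ENNReal.ofReal (dist z y + dist y p₁ + dist y p₂) =
      ENNReal.ofReal (dist z y) + (ENNReal.ofReal (dist y p₁) + ENNReal.ofReal (dist y p₂)) := by
    rw [add_assoc, ENNReal.ofReal_add dist_nonneg (add_nonneg dist_nonneg dist_nonneg),
      ENNReal.ofReal_add dist_nonneg dist_nonneg]
  refine ⟨y, ?_, ?_⟩
  · rw [hsplit]
    exact (add_le_add e0 (add_le_add e1 e2)).trans (hU.trans (measure_mono hUK))
  · intro hle
    have f0 : μH[1] L0 ≠ ⊤ := ne_top_of_le_ne_top hfin (measure_mono hK0)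
    have f1 : μH[1] L1 ≠ ⊤ := ne_top_of_le_ne_top hfin (measure_mono hK1)
    have f2 : μH[1] L2 ≠ ⊤ := ne_top_of_le_ne_top hfin (measure_mono hK2)
    have hUle : μH[1] (L0 ∪ (L1 ∪ L2)) ≤ μH[1] K := measure_mono hUK
    -- real numbers
    have r0 := (ENNReal.ofReal_le_iff_le_toReal f0).mp e0
    have r1 := (ENNReal.ofReal_le_iff_le_toReal f1).mp e1
    have r2 := (ENNReal.ofReal_le_iff_le_toReal f2).mp e2
    have hKr : (μH[1] K).toReal ≤ dist z y + dist y p₁ + dist y p₂ :=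
      ENNReal.toReal_le_of_le_ofReal (by positivity) hle
    have hUf : μH[1] (L0 ∪ (L1 ∪ L2)) ≠ ⊤ := ne_top_of_le_ne_top hfin hUle
    have hUr : (μH[1] L0).toReal + ((μH[1] L1).toReal + (μH[1] L2).toReal) ≤
        (μH[1] (L0 ∪ (L1 ∪ L2))).toReal := by
      have := ENNReal.toReal_mono hUf hU
      rwa [ENNReal.toReal_add f0 (ENNReal.add_ne_top.mpr ⟨f1, f2⟩), ENNReal.toReal_add f1 f2]
        at this
    have hUKr : (μH[1] (L0 ∪ (L1 ∪ L2))).toReal ≤ (μH[1] K).toReal :=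
      ENNReal.toReal_mono hfin hUle
    have g0 : L0 = segment ℝ z y := by
      refine arc_seg A0 ?_
      rw [← ENNReal.ofReal_toReal f0]
      exact ENNReal.ofReal_le_ofReal (by linarith)
    have g1 : L1 = segment ℝ y p₁ := by
      rw [segment_symm]
      refine arc_seg A1 ?_
      rw [← ENNReal.ofReal_toReal f1, dist_comm]
      exact ENNReal.ofReal_le_ofReal (by linarith)
    have g2 : L2 = segment ℝ y p₂ := by
      refine arc_seg A2 ?_
      rw [← ENNReal.ofReal_toReal f2]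
      exact ENNReal.ofReal_le_ofReal (by linarith)
    rw [← g0, ← g1, ← g2, union_assoc]
    refine Subset.antisymm ?_ hUK
    -- the rest of `K` is a null set
    have hUc : IsCompact (L0 ∪ (L1 ∪ L2)) := c0.union (c1.union c2)
    have hnull : μH[1] (K \ (L0 ∪ (L1 ∪ L2))) = 0 := by
      rw [measure_sdiff hUK hUc.measurableSet.nullMeasurableSet hUf]
      rw [tsub_eq_zero_iff_le, ← ENNReal.ofReal_toReal hfin, ← ENNReal.ofReal_toReal hUf]
      exact ENNReal.ofReal_le_ofReal (by linarith)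
    intro x hx
    by_contra hxU
    have hyU : y ∈ L0 ∪ (L1 ∪ L2) := Or.inr (Or.inr ⟨s, ⟨le_rfl, hs.2⟩, rfl⟩)
    obtain ⟨r, hr, hball⟩ := Metric.isOpen_iff.mp hUc.isClosed.isOpen_compl x hxU
    have hry : r ≤ dist x y := by
      by_contra hcon
      push Not at hcon
      have : y ∈ ball x r := by rw [mem_ball, dist_comm]; exact hcon
      exact hball this hyU
    have h1 := H_ball hK hx (hUK hyU) hry
    have h2 : μH[1] (K ∩ ball x r) = 0 := by
      refine measure_mono_null ?_ hnull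
      rintro w ⟨hw1, hw2⟩
      exact ⟨hw1, hball hw2⟩
    rw [h2] at h1
    have : ENNReal.ofReal r = 0 := le_antisymm h1 bot_le
    rw [ENNReal.ofReal_eq_zero] at this
    linarith

end Pool.Agent.K7.H68.SB
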