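import Mathlib

/-!
# A seven-element poset whose agreement counts are not unimodal

The poset has points `0, ..., 6` and strict relations
`0 < 3`; `0, 1, 2 < 4`; `0, 1, 3 < 5`; `0, 2, 3 < 6`.
The numbers of linear orders with `0, 1, ..., 10` agreements are
`96, 234, 404, 612, 792, 764, 792, 612, 404, 234, 96`.
-/

set_option autoImplicit false

namespace Pool.Agent.K7.H68.Agreement

/-- The ground set. -/
def P7 : Type := Fin 7

instance : Fintype P7 := inferInstanceAs (Fintype (Fin 7))
instance : DecidableEq P7 := inferInstanceAs (DecidableEq (Fin 7))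

/-- `lowB x y` says that `x` is strictly below `y`. -/
def lowB (x y : Fin 7) : Bool :=
  match y.val, x.val with
  | 3, 0 => true
  | 4, 0 => true
  | 4, 1 => true
  | 4, 2 => true
  | 5, 0 => true
  | 5, 1 => true
  | 5, 3 => true
  | 6, 0 => true
  | 6, 2 => true
  | 6, 3 => true
  | _, _ => false

instance : PartialOrder P7 where
  le x y := x = y ∨ lowB x y = true
  lt x y := lowB x y = true
  le_refl x := Or.inl rfl
  le_trans := by
    have h : ∀ x y z : Fin 7, (x = y ∨ lowB x y = true) → (y = z ∨ lowB y z = true) →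
        (x = z ∨ lowB x z = true) := by decide
    exact h
  lt_iff_le_not_ge := by
    have h : ∀ x y : Fin 7, lowB x y = true ↔
        (x = y ∨ lowB x y = true) ∧ ¬ (y = x ∨ lowB y x = true) := by decide
    exact h
  le_antisymm := by
    have h : ∀ x y : Fin 7, (x = y ∨ lowB x y = true) → (y = x ∨ lowB y x = true) → x = y := by
      decide
    exact h

lemma lt_iff (x y : P7) : x < y ↔ lowB x y = true := Iff.rfl

def ag (σ : Equiv.Perm (Fin 7)) (x y : Fin 7) : ℕ := if (σ x : ℕ) < σ y then 1 else 0

/-- The number of agreements. -/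
def stat (σ : Equiv.Perm (Fin 7)) : ℕ :=
  ag σ 0 3 + ag σ 0 4 + ag σ 1 4 + ag σ 2 4 + ag σ 0 5 + ag σ 1 5 + ag σ 3 5
   + ag σ 0 6 + ag σ 2 6 + ag σ 3 6

set_option maxRecDepth 100000 in
lemma counts :
    ((Finset.univ : Finset (Equiv.Perm (Fin 7))).filter (fun σ => stat σ = 5)).card = 764 ∧
    ((Finset.univ : Finset (Equiv.Perm (Fin 7))).filter (fun σ => stat σ = 4)).card = 792 ∧
    ((Finset.univ : Finset (Equiv.Perm (Fin 7))).filter (fun σ => stat σ = 6)).card = 792 := by
  decide +kernel

lemma pairs : (Finset.univ.filter (fun p : Fin 7 × Fin 7 => lowB p.1 p.2 = true)) =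
    {(0, 3), (0, 4), (1, 4), (2, 4), (0, 5), (1, 5), (3, 5), (0, 6), (2, 6), (3, 6)} := by
  decide

lemma inner (σ : Equiv.Perm (Fin 7)) :
    (Finset.univ.filter (fun p : Fin 7 × Fin 7 => lowB p.1 p.2 = true ∧ σ p.1 < σ p.2)).card
      = stat σ := by
  rw [← Finset.filter_filter, pairs, Finset.card_filter]
  rw [Finset.sum_insert (by decide), Finset.sum_insert (by decide),
    Finset.sum_insert (by decide), Finset.sum_insert (by decide),
    Finset.sum_insert (by decide), Finset.sum_insert (by decide),
    Finset.sum_insert (by decide), Finset.sum_insert (by decide),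
    Finset.sum_insert (by decide), Finset.sum_singleton]
  simp only [stat, ag, Fin.lt_def]
  ring

end Pool.Agent.K7.H68.Agreement
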