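import Mathlib

/-!
# Hyperplanes avoiding a small box: a four-dimensional family

For `K = k + 1 ≥ 3` and `c = ⌊K/2⌋ + 1` we use the lattice in `ℤ³` spanned by
`u = (K, -1, -1)` and `v = (c, -K, K - 1)`, whose normal vector is
`b = (2K - 1, K² - K + c, K² - c)`, and the hyperplane in `ℝ⁴` with coefficients
`(2K - 1, K b₁, K b₂, K b₃)`.
-/

set_option autoImplicit false

namespace Pool.Agent.K7.H68.BoxHyperplane

/-- `c = ⌊K/2⌋ + 1`. -/
def cc (K : ℤ) : ℤ := K / 2 + 1

/-- `4c - 1` and `2K - 1` are coprime. -/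
lemma coprime_aux (K : ℤ) : IsCoprime (4 * cc K - 1) (2 * K - 1) := by
  unfold cc
  rcases Int.even_or_odd' K with ⟨h, rfl | rfl⟩
  · -- K = 2h, c = h + 1, 4c - 1 = 4h + 3, 2K - 1 = 4h - 1
    have e1 : (2 * h) / 2 = h := by omega
    rw [e1]
    -- (4h+3) - (4h-1) = 4, and 4h - 1 ≡ -1 mod 4 : 1 = h * 4 - (4h - 1)
    refine ⟨h, -(h + 1), ?_⟩
    ring
  · -- K = 2h+1, c = h + 1, 4c - 1 = 4h + 3, 2K - 1 = 4h + 1
    have e1 : (2 * h + 1) / 2 = h := by omega
    rw [e1]
    -- difference 2; 4h + 1 = 2h * 2 + 1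
    refine ⟨-(2 * h), 2 * h + 1, ?_⟩
    ring

/-- The only lattice point of the plane in the small box is the origin. -/
lemma plane (K : ℤ) (hK : 3 ≤ K) (x y z : ℤ)
    (hx : |x| ≤ K - 1) (hy : |y| ≤ K - 1) (hz : |z| ≤ K - 1)
    (h : (2 * K - 1) * x + (K * K - K + cc K) * y + (K * K - cc K) * z = 0) :
    x = 0 ∧ y = 0 ∧ z = 0 := by
  have hd : (2 * K - 1) ∣ (4 * cc K - 1) * (z - y) := by
    refine ⟨4 * x + (2 * K - 1) * y + (2 * K + 1) * z, ?_⟩
    linear_combination (-4 : ℤ) * h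
  have hd2 : (2 * K - 1) ∣ (z - y) := (coprime_aux K).symm.dvd_of_dvd_mul_left hd
  obtain ⟨n, hn⟩ := hd2
  -- m = -y - nK
  obtain ⟨m, hm⟩ : ∃ m : ℤ, m = -y - n * K := ⟨_, rfl⟩
  have hy' : y = -m - n * K := by linarith
  have hz' : z = -m + n * (K - 1) := by
    have : z = y + (2 * K - 1) * n := by linarith
    rw [this, hy']; ring
  have hx' : x = m * K + n * cc K := by
    have h2 : (2 * K - 1) * (x - (m * K + n * cc K)) = 0 := by
      rw [hy', hz'] at h
      linear_combination h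
    have h3 : (2 * K - 1) ≠ 0 := by omega
    have := (mul_eq_zero.mp h2).resolve_left h3
    linarith
  rw [abs_le] at hx hy hz
  have hn0 : n = 0 := by
    by_contra hne
    rcases lt_or_gt_of_ne hne with hneg | hpos
    · -- n ≤ -1
      have h1 : n ≤ -1 := by omega
      -- y = -m - nK ≤ K-1  and z = -m + n(K-1) ≥ -(K-1)
      nlinarith [hy.1, hy.2, hz.1, hz.2]
    · have h1 : 1 ≤ n := by omega
      nlinarith [hy.1, hy.2, hz.1, hz.2]
  subst hn0
  have hm0 : m = 0 := by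
    by_contra hne
    rcases lt_or_gt_of_ne hne with hneg | hpos
    · have h1 : m ≤ -1 := by omega
      nlinarith [hx.1, hx.2]
    · have h1 : 1 ≤ m := by omega
      nlinarith [hx.1, hx.2]
  subst hm0
  refine ⟨by simpa using hx', by simpa using hy', by simpa using hz'⟩

/-- The coefficients of the hyperplane. -/
def coef (K : ℤ) : Fin 4 → ℤ :=
  ![2 * K - 1, K * (2 * K - 1), K * (K * K - K + cc K), K * (K * K - cc K)]

lemma avoids (K : ℤ) (hK : 3 ≤ K) (x : Fin 4 → ℤ) (hx : ∀ i, |x i| ≤ K - 1)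
    (h : ∑ i, coef K i * x i = 0) : x = 0 := by
  simp only [coef, Fin.sum_univ_four, Matrix.cons_val_zero, Matrix.cons_val_one,
    Matrix.cons_val] at h
  have hd : K ∣ x 0 := by
    have h1 : K ∣ (2 * K - 1) * x 0 := by
      refine ⟨-((2 * K - 1) * x 1 + (K * K - K + cc K) * x 2 + (K * K - cc K) * x 3), ?_⟩
      linear_combination h
    have hc : IsCoprime K (2 * K - 1) := ⟨2, -1, by ring⟩
    exact hc.dvd_of_dvd_mul_left h1
  have h0 : x 0 = 0 := by
    obtain ⟨t, ht⟩ := hd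
    have := hx 0
    rw [abs_le] at this
    have ht0 : t = 0 := by
      by_contra hne
      rcases lt_or_gt_of_ne hne with hneg | hpos
      · have h1 : t ≤ -1 := by omega
        nlinarith [this.1, this.2]
      · have h1 : 1 ≤ t := by omega
        nlinarith [this.1, this.2]
    rw [ht, ht0, mul_zero]
  have h1 : (2 * K - 1) * x 1 + (K * K - K + cc K) * x 2 + (K * K - cc K) * x 3 = 0 := by
    have h2 : K * ((2 * K - 1) * x 1 + (K * K - K + cc K) * x 2 + (K * K - cc K) * x 3) = 0 := by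
      rw [h0] at h
      linear_combination h
    exact (mul_eq_zero.mp h2).resolve_left (by omega)
  obtain ⟨e1, e2, e3⟩ := plane K hK _ _ _ (hx 1) (hx 2) (hx 3) h1
  funext i
  fin_cases i
  · exact h0
  · exact e1
  · exact e2
  · exact e3

/-- The list of nineteen points of the hyperplane in the large box. -/
def pts (K : ℤ) : List (Fin 4 → ℤ) :=
  let c := cc K
  [ ![0, 0, 0, 0],
    ![0, K, -1, -1], ![0, -K, 1, 1],
    ![0, c, -K, K - 1], ![0, -c, K, 1 - K],
    ![0, K - c, K - 1, -K], ![0, c - K, 1 - K, K],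
    ![K, -1, 0, 0], ![K, K - 1, -1, -1], ![K, c - 1, -K, K - 1], ![K, -1 - c, K, 1 - K],
    ![K, K - c - 1, K - 1, -K], ![K, c - K - 1, 1 - K, K],
    ![-K, 1, 0, 0], ![-K, 1 - K, 1, 1], ![-K, 1 - c, K, 1 - K], ![-K, 1 + c, -K, K - 1],
    ![-K, c - K + 1, 1 - K, K], ![-K, K - c + 1, K - 1, -K] ]

lemma pts_length (K : ℤ) : (pts K).length = 19 := rfl

lemma cc_bounds (K : ℤ) (hK : 3 ≤ K) : 1 ≤ cc K ∧ cc K ≤ K - 1 := by
  unfold cc; omega

lemma vec_ne {a b c d a' b' c' d' : ℤ} (h : a ≠ a' ∨ b ≠ b' ∨ c ≠ c' ∨ d ≠ d') :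
    (![a, b, c, d] : Fin 4 → ℤ) ≠ ![a', b', c', d'] := by
  intro e
  have e0 := congrFun e 0
  have e1 := congrFun e 1
  have e2 := congrFun e 2
  have e3 := congrFun e 3
  simp only [Matrix.cons_val_zero, Matrix.cons_val_one, Matrix.cons_val] at e0 e1 e2 e3
  tauto

lemma pts_nodup (K : ℤ) (hK : 3 ≤ K) : (pts K).Nodup := by
  have hc := cc_bounds K hK
  unfold pts
  simp only [List.nodup_cons, List.mem_cons, List.not_mem_nil, or_false, not_or,
    not_false_eq_true, List.nodup_nil, and_true]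
  refine ⟨?_, ?_, ?_, ?_, ?_, ?_, ?_, ?_, ?_, ?_, ?_, ?_, ?_, ?_, ?_, ?_, ?_, ?_⟩ <;>
    (repeat' constructor) <;> (apply vec_ne; omega)

lemma pts_mem (K : ℤ) (hK : 3 ≤ K) (x : Fin 4 → ℤ) (hx : x ∈ pts K) :
    (∀ i, |x i| ≤ K) ∧ ∑ i, coef K i * x i = 0 := by
  have hc := cc_bounds K hK
  unfold pts at hx
  simp only [List.mem_cons, List.not_mem_nil, or_false] at hx
  rcases hx with rfl | rfl | rfl | rfl | rfl | rfl | rfl | rfl | rfl | rfl | rfl | rfl | rfl |
    rfl | rfl | rfl | rfl | rfl | rfl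
  all_goals
    constructor
    · intro i
      fin_cases i <;> simp only [Fin.zero_eta, Fin.mk_one, Fin.reduceFinMk, Fin.isValue,
        Matrix.cons_val_zero, Matrix.cons_val_one, Matrix.cons_val] <;> rw [abs_le] <;>
        constructor <;> linarith
    · simp only [coef, Fin.sum_univ_four, Matrix.cons_val_zero, Matrix.cons_val_one,
        Matrix.cons_val]
      ring

/-- For every `k ≥ 2` some hyperplane of `ℝ⁴` meets the small box only in the origin and the
large box in at least nineteen points. -/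
theorem nineteen (k : ℕ) (hk : 2 ≤ k) :
    ∃ a : Fin 4 → ℝ, a ≠ 0 ∧
      (∀ x : Fin 4 → ℤ, (∀ i, |x i| ≤ (k : ℤ)) → ∑ i, a i * (x i : ℝ) = 0 → x = 0) ∧
      19 ≤ ((Fintype.piFinset fun _ : Fin 4 => Finset.Icc (-((k : ℤ) + 1)) ((k : ℤ) + 1)).filter
              (fun x => ∑ i, a i * (x i : ℝ) = 0)).card := by
  set K : ℤ := (k : ℤ) + 1 with hKdef
  have hK : 3 ≤ K := by omega
  have key : ∀ x : Fin 4 → ℤ, (∑ i, ((coef K i : ℤ) : ℝ) * (x i : ℝ) = 0) ↔
      ∑ i, coef K i * x i = 0 := by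
    intro x
    rw [← Int.cast_inj (α := ℝ)]
    push_cast
    rfl
  refine ⟨fun i => ((coef K i : ℤ) : ℝ), ?_, ?_, ?_⟩
  · intro h
    have h0 := congrFun h 0
    simp only [coef, Matrix.cons_val_zero, Pi.zero_apply] at h0
    have : (2 * K - 1 : ℤ) = 0 := by exact_mod_cast h0
    omega
  · intro x hx h
    exact avoids K hK x (fun i => by have := hx i; omega) ((key x).1 h)
  · have hsub : (pts K).toFinset ⊆
        ((Fintype.piFinset fun _ : Fin 4 => Finset.Icc (-K) K).filter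
              (fun x => ∑ i, ((coef K i : ℤ) : ℝ) * (x i : ℝ) = 0)) := by
      intro x hx
      rw [List.mem_toFinset] at hx
      obtain ⟨h1, h2⟩ := pts_mem K hK x hx
      rw [Finset.mem_filter, Fintype.mem_piFinset]
      refine ⟨fun i => ?_, (key x).2 h2⟩
      rw [Finset.mem_Icc]
      exact abs_le.mp (h1 i)
    have hcard := Finset.card_le_card hsub
    rw [List.toFinset_card_of_nodup (pts_nodup K hK), pts_length] at hcard
    exact hcard

lemma pell_four : ((1 + Real.sqrt 2) ^ 4 + (1 - Real.sqrt 2) ^ 4) / 2 = 17 := by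
  have h : Real.sqrt 2 ^ 2 = 2 := Real.sq_sqrt (by norm_num)
  have h4 : Real.sqrt 2 ^ 4 = 4 := by
    have : Real.sqrt 2 ^ 4 = (Real.sqrt 2 ^ 2) ^ 2 := by ring
    rw [this, h]; norm_num
  have : ((1 + Real.sqrt 2) ^ 4 + (1 - Real.sqrt 2) ^ 4) / 2
      = 1 + 6 * Real.sqrt 2 ^ 2 + Real.sqrt 2 ^ 4 := by ring
  rw [this, h, h4]; norm_num

end Pool.Agent.K7.H68.BoxHyperplane
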