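import Mathlib

/-!
# A nontrivial 6-wise intersecting family of 15-subsets of [18] with 566 members

The family consists of all `A ⊆ [18]`, `|A| = 15`, with `{1, 2} ⊆ A`, together with all those with
`|A ∩ {1, 2}| = 1` and `[3, 15] ⊆ A`.
-/

set_option autoImplicit false

open Finset

namespace Pool.Agent.K7.H68.DWise

lemma card_le_compl {U : Finset ℕ} {k l : ℕ} (hU : U.card = k + l) (P Q : Finset ℕ → Prop)
    [DecidablePred P] [DecidablePred Q] (h : ∀ A ⊆ U, A.card = k → P A → Q (U \ A)) :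
    ((powersetCard k U).filter P).card ≤ ((powersetCard l U).filter Q).card := by
  apply Finset.card_le_card_of_injOn (fun A => U \ A)
  · intro A hA
    simp only [coe_filter, mem_powersetCard, Set.mem_ofPred_eq] at hA ⊢
    obtain ⟨⟨hA1, hA2⟩, hA3⟩ := hA
    refine ⟨⟨sdiff_subset, ?_⟩, h A hA1 hA2 hA3⟩
    rw [card_sdiff_of_subset hA1]; omega
  · intro A hA B hB hAB
    simp only [coe_filter, mem_powersetCard, Set.mem_ofPred_eq] at hA hB hAB
    have h1 : U \ (U \ A) = U \ (U \ B) := by rw [hAB]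
    rwa [Finset.sdiff_sdiff_eq_self hA.1.1, Finset.sdiff_sdiff_eq_self hB.1.1] at h1

lemma inter_compl {U A S : Finset ℕ} (hS : S ⊆ U) :
    (A ∩ S).card + ((U \ A) ∩ S).card = S.card := by
  have h1 : (U \ A) ∩ S = S \ A := by
    ext x; simp only [mem_inter, mem_sdiff]
    constructor
    · rintro ⟨⟨_, h⟩, h'⟩; exact ⟨h', h⟩
    · rintro ⟨h, h'⟩; exact ⟨⟨hS h, h'⟩, h⟩
  rw [h1, inter_comm]
  exact card_inter_add_card_sdiff S A

lemma c1 : ((powersetCard 3 (Icc 1 18)).filter (fun T : Finset ℕ =>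
   1 ∉ T ∧ (T ∩ Icc 2 7).card ≤ 1)).card = 495 := by
  decide +kernel
lemma c2 : ((powersetCard 3 (Icc 1 18)).filter (fun T : Finset ℕ =>
   1 ∉ T ∧ (T ∩ Icc 2 12).card ≤ 2)).card = 515 := by
  decide +kernel
lemma c3 : ((powersetCard 3 (Icc 1 18)).filter (fun T : Finset ℕ =>
   (T ∩ Icc 1 16).card ≤ 2)).card = 256 := by
  decide +kernel
lemma c4 : ((powersetCard 3 (Icc 1 18)).filter (fun T : Finset ℕ =>
   1 ∉ T ∧ (T ∩ Icc 2 16).card ≤ 2)).card = 225 := by
  decide +kernel
lemma c5 : ((powersetCard 3 (Icc 1 18)).filter (fun T : Finset ℕ =>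
   1 ∉ T ∧ 2 ∉ T)).card = 560 := by
  decide +kernel
lemma c6 : ((powersetCard 2 (Icc 2 18)).filter (fun T : Finset ℕ =>
   (T ∩ Icc 2 7).card ≤ 0)).card = 55 := by
  decide +kernel
lemma c7 : ((powersetCard 2 (Icc 2 18)).filter (fun T : Finset ℕ =>
   (T ∩ Icc 2 12).card ≤ 0)).card = 15 := by
  decide +kernel
lemma c8 : ((powersetCard 3 (Icc 1 18)).filter (fun T : Finset ℕ =>
   (1 ∉ T ∧ 2 ∉ T) ∨ ((1 ∉ T ↔ 2 ∈ T) ∧ (T ∩ Icc 3 15).card ≤ 0))).card = 566 := by
  decide +kernel

/-- The family. -/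
def fam : Finset (Finset ℕ) :=
  (powersetCard 15 (Icc 1 18)).filter
    (fun A => (1 ∈ A ∧ 2 ∈ A) ∨ ((1 ∈ A ↔ 2 ∉ A) ∧ Icc 3 15 ⊆ A))

lemma fam_card : 566 ≤ fam.card := by
  refine le_trans c8.ge ?_
  apply card_le_compl (by simp)
  intro T hT _ h
  have m1 : (1 : ℕ) ∈ Icc 1 18 := by simp
  have m2 : (2 : ℕ) ∈ Icc 1 18 := by simp
  simp only [mem_sdiff, m1, m2, true_and]
  rcases h with h | ⟨h1, h2⟩
  · exact Or.inl h
  · refine Or.inr ⟨by tauto, ?_⟩
    intro x hx
    rw [mem_sdiff]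
    refine ⟨?_, fun hxT => ?_⟩
    · simp only [mem_Icc] at hx ⊢; omega
    · have : x ∈ T ∩ Icc 3 15 := mem_inter.2 ⟨hxT, hx⟩
      have h3 : T ∩ Icc 3 15 = ∅ := by
        rw [← card_eq_zero]; omega
      rw [h3] at this
      exact absurd this (notMem_empty x)

lemma miss {A : Finset ℕ} (hA : A ∈ fam) : (Icc 3 15 \ A).card ≤ 3 := by
  simp only [fam, mem_filter, mem_powersetCard] at hA
  have h1 : Icc 3 15 \ A ⊆ Icc 1 18 \ A := by
    apply sdiff_subset_sdiff _ (le_refl A)
    intro x hx; simp only [mem_Icc] at hx ⊢; omega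
  calc (Icc 3 15 \ A).card ≤ (Icc 1 18 \ A).card := card_le_card h1
    _ = 3 := by rw [card_sdiff_of_subset hA.1.1, hA.1.2]; simp

lemma inter_prop : ∀ G ⊆ fam, G.card ≤ 6 → ∃ x : ℕ, ∀ A ∈ G, x ∈ A := by
  intro G hG hcard
  by_contra hno
  push Not at hno
  obtain ⟨A, hA, h1⟩ := hno 1
  obtain ⟨B, hB, h2⟩ := hno 2
  have hA' := hG hA
  have hB' := hG hB
  simp only [fam, mem_filter, mem_powersetCard] at hA' hB'
  have hAs : Icc 3 15 ⊆ A := by
    rcases hA'.2 with h | h
    · exact absurd h.1 h1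
    · exact h.2
  have hBs : Icc 3 15 ⊆ B := by
    rcases hB'.2 with h | h
    · exact absurd h.2 h2
    · exact h.2
  have hAB : A ≠ B := by
    rintro rfl
    rcases hA'.2 with h | h
    · exact h1 h.1
    · exact h1 (h.1.2 h2)
  have hcov : Icc 3 15 ⊆ G.biUnion (fun C => Icc 3 15 \ C) := by
    intro x hx
    obtain ⟨C, hC, hxC⟩ := hno x
    exact mem_biUnion.2 ⟨C, hC, mem_sdiff.2 ⟨hx, hxC⟩⟩
  have h3 : (Icc 3 15).card ≤ ∑ C ∈ G, (Icc 3 15 \ C).card :=
    (card_le_card hcov).trans card_biUnion_le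
  have hA0 : (Icc 3 15 \ A).card = 0 := by
    rw [card_eq_zero, sdiff_eq_empty_iff_subset]; exact hAs
  have hB0 : (Icc 3 15 \ B).card = 0 := by
    rw [card_eq_zero, sdiff_eq_empty_iff_subset]; exact hBs
  have hB2 : B ∈ G.erase A := mem_erase.2 ⟨hAB.symm, hB⟩
  rw [← add_sum_erase G _ hA, hA0, zero_add, ← add_sum_erase _ _ hB2, hB0, zero_add] at h3
  have h4 : ∑ C ∈ (G.erase A).erase B, (Icc 3 15 \ C).card ≤ ((G.erase A).erase B).card * 3 := by
    apply sum_le_card_nsmul
    intro C hC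
    exact miss (hG (mem_of_mem_erase (mem_of_mem_erase hC)))
  have h5 : ((G.erase A).erase B).card ≤ 4 := by
    rw [card_erase_of_mem hB2, card_erase_of_mem hA]; omega
  have h6 : (Icc 3 15).card = 13 := by simp
  omega

lemma mem_fam {T : Finset ℕ} (hT : T ⊆ Icc 1 18) (hc : T.card = 3)
    (h : (1 ∉ T ∧ 2 ∉ T) ∨ ((1 ∉ T ↔ 2 ∈ T) ∧ T ∩ Icc 3 15 = ∅)) : Icc 1 18 \ T ∈ fam := by
  simp only [fam, mem_filter, mem_powersetCard]
  refine ⟨⟨sdiff_subset, ?_⟩, ?_⟩
  · rw [card_sdiff_of_subset hT, hc]; simp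
  have m1 : (1 : ℕ) ∈ Icc 1 18 := by simp
  have m2 : (2 : ℕ) ∈ Icc 1 18 := by simp
  simp only [mem_sdiff, m1, m2, true_and]
  rcases h with h | ⟨h1, h2⟩
  · exact Or.inl h
  · refine Or.inr ⟨by tauto, ?_⟩
    intro x hx
    rw [mem_sdiff]
    refine ⟨?_, fun hxT => ?_⟩
    · simp only [mem_Icc] at hx ⊢; omega
    · have : x ∈ T ∩ Icc 3 15 := mem_inter.2 ⟨hxT, hx⟩
      rw [h2] at this
      exact absurd this (notMem_empty x)

lemma nontrivial_fam : ¬ ∃ x : ℕ, ∀ A ∈ fam, x ∈ A := by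
  rintro ⟨x, hx⟩
  have t1 := hx _ (mem_fam (T := {1, 16, 17}) (by decide) (by decide) (by decide))
  have t2 := hx _ (mem_fam (T := {2, 16, 17}) (by decide) (by decide) (by decide))
  have t3 := hx _ (mem_fam (T := {3, 4, 5}) (by decide) (by decide) (by decide))
  have t4 := hx _ (mem_fam (T := {6, 7, 8}) (by decide) (by decide) (by decide))
  have t5 := hx _ (mem_fam (T := {9, 10, 11}) (by decide) (by decide) (by decide))
  have t6 := hx _ (mem_fam (T := {12, 13, 14}) (by decide) (by decide) (by decide))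
  have t7 := hx _ (mem_fam (T := {15, 16, 17}) (by decide) (by decide) (by decide))
  have t8 := hx _ (mem_fam (T := {16, 17, 18}) (by decide) (by decide) (by decide))
  simp only [mem_sdiff, mem_Icc, mem_insert, mem_singleton] at t1 t2 t3 t4 t5 t6 t7 t8
  omega

lemma m_bound : ∀ r ∈ Icc 1 ((15 - 1) / (6 - 1)),
        (((Finset.powersetCard 15 (Finset.Icc 1 18)).filter (fun A =>
            1 ∈ A ∧ 1 + (6 - 2) * r ≤ (A ∩ Finset.Icc 2 (2 + (6 - 1) * r)).card)) ∪
         ((Finset.powersetCard 15 (Finset.Icc 2 18)).filter (fun A =>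
            Finset.Icc 2 (2 + (6 - 1) * r) ⊆ A))).card ≤ 565 := by
  intro r hr
  have hr' : r = 1 ∨ r = 2 := by
    rw [mem_Icc] at hr; omega
  rcases hr' with rfl | rfl
  · refine (card_union_le _ _).trans ?_
    have e1 : ((Finset.powersetCard 15 (Finset.Icc 1 18)).filter (fun A =>
            1 ∈ A ∧ 1 + (6 - 2) * 1 ≤ (A ∩ Finset.Icc 2 (2 + (6 - 1) * 1)).card)).card ≤ 495 := by
      refine le_trans ?_ c1.le
      apply card_le_compl (by simp)
      intro A hA _ h
      have h2 := inter_compl (U := Icc 1 18) (A := A) (S := Icc 2 7) (by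
        intro x hx; simp only [mem_Icc] at hx ⊢; omega)
      have h3 : (Icc 2 7).card = 6 := by simp
      have h4 : 5 ≤ (A ∩ Icc 2 7).card := h.2
      refine ⟨fun h' => (mem_sdiff.1 h').2 h.1, by omega⟩
    have e2 : ((Finset.powersetCard 15 (Finset.Icc 2 18)).filter (fun A =>
            Finset.Icc 2 (2 + (6 - 1) * 1) ⊆ A)).card ≤ 55 := by
      refine le_trans ?_ c6.le
      apply card_le_compl (by simp)
      intro A hA _ h
      have h2 := inter_compl (U := Icc 2 18) (A := A) (S := Icc 2 7) (by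
        intro x hx; simp only [mem_Icc] at hx ⊢; omega)
      have h3 : (Icc 2 7).card = 6 := by simp
      have h4 : A ∩ Icc 2 7 = Icc 2 7 := inter_eq_right.2 h
      rw [h4] at h2
      omega
    omega
  · refine (card_union_le _ _).trans ?_
    have e1 : ((Finset.powersetCard 15 (Finset.Icc 1 18)).filter (fun A =>
            1 ∈ A ∧ 1 + (6 - 2) * 2 ≤ (A ∩ Finset.Icc 2 (2 + (6 - 1) * 2)).card)).card ≤ 515 := by
      refine le_trans ?_ c2.le
      apply card_le_compl (by simp)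
      intro A hA _ h
      have h2 := inter_compl (U := Icc 1 18) (A := A) (S := Icc 2 12) (by
        intro x hx; simp only [mem_Icc] at hx ⊢; omega)
      have h3 : (Icc 2 12).card = 11 := by simp
      have h4 : 9 ≤ (A ∩ Icc 2 12).card := h.2
      refine ⟨fun h' => (mem_sdiff.1 h').2 h.1, by omega⟩
    have e2 : ((Finset.powersetCard 15 (Finset.Icc 2 18)).filter (fun A =>
            Finset.Icc 2 (2 + (6 - 1) * 2) ⊆ A)).card ≤ 15 := by
      refine le_trans ?_ c7.le
      apply card_le_compl (by simp)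
      intro A hA _ h
      have h2 := inter_compl (U := Icc 2 18) (A := A) (S := Icc 2 12) (by
        intro x hx; simp only [mem_Icc] at hx ⊢; omega)
      have h3 : (Icc 2 12).card = 11 := by simp
      have h4 : A ∩ Icc 2 12 = Icc 2 12 := inter_eq_right.2 h
      rw [h4] at h2
      omega
    omega

lemma t_bound : ∀ r ∈ range 6,
        (((Finset.powersetCard 15 (Finset.Icc 1 18)).filter (fun A =>
            Finset.Icc 1 r ⊆ A ∧
            ((6 - r - 1) * (15 - r + 1)) / (6 - r) + 1 ≤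
              (A ∩ Finset.Icc (r + 1) (15 + 1)).card)) ∪
         ((Finset.Icc 1 r).image (fun i => (Finset.Icc 1 (15 + 1)).erase i))).card ≤ 565 := by
  intro r hr
  rw [mem_range] at hr
  refine (card_union_le _ _).trans ?_
  have himg : ((Finset.Icc 1 r).image (fun i => (Finset.Icc 1 (15 + 1)).erase i)).card ≤ r := by
    refine card_image_le.trans ?_
    simp
  rcases (show r = 0 ∨ r = 1 ∨ 2 ≤ r by omega) with rfl | rfl | h2r
  · have e1 : ((Finset.powersetCard 15 (Finset.Icc 1 18)).filter (fun A =>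
            Finset.Icc 1 0 ⊆ A ∧
            ((6 - 0 - 1) * (15 - 0 + 1)) / (6 - 0) + 1 ≤
              (A ∩ Finset.Icc (0 + 1) (15 + 1)).card)).card ≤ 256 := by
      refine le_trans ?_ c3.le
      apply card_le_compl (by simp)
      intro A hA _ h
      have h2 := inter_compl (U := Icc 1 18) (A := A) (S := Icc 1 16) (by
        intro x hx; simp only [mem_Icc] at hx ⊢; omega)
      have h3 : (Icc 1 16).card = 16 := by simp
      have h4 : 14 ≤ (A ∩ Icc 1 16).card := h.2
      omega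
    omega
  · have e1 : ((Finset.powersetCard 15 (Finset.Icc 1 18)).filter (fun A =>
            Finset.Icc 1 1 ⊆ A ∧
            ((6 - 1 - 1) * (15 - 1 + 1)) / (6 - 1) + 1 ≤
              (A ∩ Finset.Icc (1 + 1) (15 + 1)).card)).card ≤ 225 := by
      refine le_trans ?_ c4.le
      apply card_le_compl (by simp)
      intro A hA _ h
      have h2 := inter_compl (U := Icc 1 18) (A := A) (S := Icc 2 16) (by
        intro x hx; simp only [mem_Icc] at hx ⊢; omega)
      have h3 : (Icc 2 16).card = 15 := by simp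
      have h4 : 13 ≤ (A ∩ Icc 2 16).card := h.2
      have h5 : 1 ∈ A := h.1 (by simp)
      refine ⟨fun h' => (mem_sdiff.1 h').2 h5, by omega⟩
    omega
  · have e1 : ((Finset.powersetCard 15 (Finset.Icc 1 18)).filter (fun A =>
            Finset.Icc 1 r ⊆ A ∧
            ((6 - r - 1) * (15 - r + 1)) / (6 - r) + 1 ≤
              (A ∩ Finset.Icc (r + 1) (15 + 1)).card)).card ≤ 560 := by
      refine le_trans ?_ c5.le
      apply card_le_compl (by simp)
      intro A hA _ h
      have h5 : 1 ∈ A := h.1 (by simp; omega)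
      have h6 : 2 ∈ A := h.1 (by simp; omega)
      exact ⟨fun h' => (mem_sdiff.1 h').2 h5, fun h' => (mem_sdiff.1 h').2 h6⟩
    omega

end Pool.Agent.K7.H68.DWise
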