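import Mathlib

set_option autoImplicit false

/-!
A planar 3-colourable graph which is not 1-defective 3-correspondable.
Two poles `inl true`, `inl false`; for every colour pair `(a,b)` of the poles three paths of
three vertices, all joined to both poles.
-/

namespace Pool.Agent.K7.H68.DefCorr

/-- Vertices: two poles and 27 paths with 3 vertices each. -/
abbrev V : Type := Bool ⊕ ((Fin 3 × Fin 3 × Fin 3) × Fin 3)

/-- Position (on the `x`-axis) of a path vertex. -/
def idx (k : (Fin 3 × Fin 3 × Fin 3) × Fin 3) : ℤ :=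
  27 * (k.1.1 : ℕ) + 9 * (k.1.2.1 : ℕ) + 3 * (k.1.2.2 : ℕ) + (k.2 : ℕ)

lemma idx_inj : Function.Injective idx := by
  rintro ⟨⟨a, b, c⟩, d⟩ ⟨⟨a', b', c'⟩, d'⟩ h
  simp only [idx] at h
  have h1 : (a : ℕ) = a' := by omega
  have h2 : (b : ℕ) = b' := by omega
  have h3 : (c : ℕ) = c' := by omega
  have h4 : (d : ℕ) = d' := by omega
  simp [Fin.ext_iff, h1, h2, h3, h4]

def adjB : V → V → Prop
  | .inl _, .inr _ => True
  | .inr _, .inl _ => True
  | .inl _, .inl _ => False
  | .inr k, .inr l => k.1 = l.1 ∧ (idx l = idx k + 1 ∨ idx k = idx l + 1)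

def G : SimpleGraph V where
  Adj := adjB
  symm := ⟨by
    rintro (s | k) (s' | l) h
    · exact h
    · trivial
    · trivial
    · exact ⟨h.1.symm, h.2.symm⟩⟩
  loopless := ⟨by
    rintro (s | k) h
    · exact h
    · have := h.2; omega⟩

def sgn (s : Bool) : ℝ := if s then 1 else -1

def pos : V → ℝ × ℝ
  | .inl s => (0, sgn s)
  | .inr k => ((idx k : ℝ), 0)

def seg (u v : V) (t : unitInterval) : ℝ × ℝ :=
  ((1 - (t : ℝ)) * (pos u).1 + t * (pos v).1, (1 - (t : ℝ)) * (pos u).2 + t * (pos v).2)


lemma sgn_ne (s : Bool) : sgn s ≠ 0 := by cases s <;> simp [sgn]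

lemma sgn_inj {s s' : Bool} (h : sgn s = sgn s') : s = s' := by
  cases s <;> cases s' <;> simp [sgn] at h ⊢ <;> linarith

lemma sgn_neg {s s' : Bool} (h : s ≠ s') : sgn s' = - sgn s := by
  cases s <;> cases s' <;> simp [sgn] at h ⊢

lemma intlem (m m' : ℤ) (t r : ℝ) (t0 : 0 ≤ t) (t1 : t ≤ 1) (r0 : 0 ≤ r) (r1 : r ≤ 1)
    (hm : m ≠ m') (h : (m : ℝ) + t = m' + r) : t = 0 ∨ t = 1 := by
  rcases lt_or_gt_of_ne hm with h' | h'
  · have : (m : ℝ) + 1 ≤ m' := by exact_mod_cast h'
    right; linarith
  · have : (m' : ℝ) + 1 ≤ m := by exact_mod_cast h'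
    left; linarith

lemma intlem' (m m' : ℤ) (t : ℝ) (t0 : 0 ≤ t) (t1 : t ≤ 1)
    (h : (m : ℝ) + t = m') : t = 0 ∨ t = 1 := by
  by_cases hm : m = m'
  · subst hm; left; linarith
  · exact intlem m m' t 0 t0 t1 le_rfl zero_le_one hm (by linarith)

/-- two edges at the poles -/
lemma starlem (s s' : Bool) (k l : (Fin 3 × Fin 3 × Fin 3) × Fin 3) (t r : ℝ)
    (t1 : t ≤ 1) (r1 : r ≤ 1) (hne : ¬ (s = s' ∧ k = l))
    (h1 : t * (idx k : ℝ) = r * (idx l : ℝ)) (h2 : (1 - t) * sgn s = (1 - r) * sgn s') :
    t = 0 ∨ t = 1 := by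
  by_cases hs : s = s'
  · subst hs
    have htr : t = r := by
      have := mul_right_cancel₀ (sgn_ne s) h2
      linarith
    subst htr
    by_cases ht : t = 0
    · exact Or.inl ht
    · exfalso
      have h3 := mul_left_cancel₀ ht h1
      have h4 : idx k = idx l := by exact_mod_cast h3
      exact hne ⟨rfl, idx_inj h4⟩
  · rw [sgn_neg hs] at h2
    have h3 : ((1 - t) + (1 - r)) * sgn s = 0 := by linarith
    rcases mul_eq_zero.1 h3 with h | h
    · right; linarith
    · exact absurd h (sgn_ne s)

lemma pos_inj : Function.Injective pos := by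
  rintro (s | k) (s' | l) h
  · simp only [pos, Prod.mk.injEq] at h
    rw [sgn_inj h.2]
  · simp only [pos, Prod.mk.injEq] at h
    exact absurd h.2 (sgn_ne s)
  · simp only [pos, Prod.mk.injEq] at h
    exact absurd h.2.symm (sgn_ne s')
  · simp only [pos, Prod.mk.injEq] at h
    have h4 : idx k = idx l := by exact_mod_cast h.1
    rw [idx_inj h4]

lemma seg_cont (u v : V) : Continuous (seg u v) := by
  unfold seg
  fun_prop

lemma seg_zero (u v : V) : seg u v 0 = pos u := by
  simp [seg]

lemma seg_one (u v : V) : seg u v 1 = pos v := by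
  simp [seg]

lemma seg_inj (u v : V) (huv : u ≠ v) : Function.Injective (seg u v) := by
  intro t r h
  simp only [seg, Prod.mk.injEq] at h
  obtain ⟨h1, h2⟩ := h
  have e1 : ((t : ℝ) - r) * ((pos v).1 - (pos u).1) = 0 := by linarith
  have e2 : ((t : ℝ) - r) * ((pos v).2 - (pos u).2) = 0 := by linarith
  by_cases htr : (t : ℝ) - r = 0
  · exact Subtype.ext (by linarith)
  · exfalso
    have f1 := (mul_eq_zero.1 e1).resolve_left htr
    have f2 := (mul_eq_zero.1 e2).resolve_left htr
    exact huv (pos_inj (Prod.ext (by linarith) (by linarith)))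

/-- the underlying real statement of non-crossing -/
lemma cross_real (u v x y : V) (huv : G.Adj u v) (hxy : G.Adj x y) (hne : s(u, v) ≠ s(x, y))
    (t r : ℝ) (t0 : 0 ≤ t) (t1 : t ≤ 1) (r0 : 0 ≤ r) (r1 : r ≤ 1)
    (h1 : (1 - t) * (pos u).1 + t * (pos v).1 = (1 - r) * (pos x).1 + r * (pos y).1)
    (h2 : (1 - t) * (pos u).2 + t * (pos v).2 = (1 - r) * (pos x).2 + r * (pos y).2) :
    t = 0 ∨ t = 1 := by
  have flip : ∀ t : ℝ, (1 - t = 0 ∨ 1 - t = 1) → (t = 0 ∨ t = 1) := by
    rintro t (h | h)
    · right; linarith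
    · left; linarith
  rcases u with s | k <;> rcases v with s' | k'
  · exact absurd huv id
  · rcases x with a | l <;> rcases y with a' | l'
    · exact absurd hxy id
    · simp only [pos, mul_zero, zero_add, add_zero] at h1 h2
      refine starlem s a k' l' t r t1 r1 ?_ h1 h2
      rintro ⟨rfl, rfl⟩; exact hne rfl
    · simp only [pos, mul_zero, zero_add, add_zero] at h1 h2
      refine starlem s a' k' l t (1 - r) t1 (by linarith) ?_ h1 (by rw [h2]; ring)
      rintro ⟨rfl, rfl⟩; exact hne Sym2.eq_swap
    · simp only [pos, mul_zero, zero_add, add_zero] at h1 h2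
      rcases mul_eq_zero.1 h2 with h | h
      · right; linarith
      · exact absurd h (sgn_ne _)
  · rcases x with a | l <;> rcases y with a' | l'
    · exact absurd hxy id
    · simp only [pos, mul_zero, zero_add, add_zero] at h1 h2
      apply flip
      refine starlem s' a k l' (1 - t) r (by linarith) r1 ?_ h1 (by rw [← h2]; ring)
      rintro ⟨rfl, rfl⟩; exact hne Sym2.eq_swap
    · simp only [pos, mul_zero, zero_add, add_zero] at h1 h2
      apply flip
      refine starlem s' a' k l (1 - t) (1 - r) (by linarith) (by linarith) ?_ h1 ?_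
      · rintro ⟨rfl, rfl⟩; exact hne rfl
      · simpa using h2
    · simp only [pos, mul_zero, zero_add, add_zero] at h1 h2
      rcases mul_eq_zero.1 h2 with h | h
      · left; linarith
      · exact absurd h (sgn_ne _)
  · -- both on the axis
    have hk := huv.2
    rcases x with a | l <;> rcases y with a' | l'
    · exact absurd hxy id
    · simp only [pos, mul_zero, zero_add, add_zero] at h1 h2
      have hr : r = 1 := by
        rcases mul_eq_zero.1 h2.symm with h | h
        · linarith
        · exact absurd h (sgn_ne _)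
      subst hr
      rcases hk with h | h
      · rw [h] at h1
        push_cast at h1
        exact intlem' (idx k) (idx l') t t0 t1 (by linarith)
      · rw [h] at h1
        push_cast at h1
        apply flip
        exact intlem' (idx k') (idx l') (1 - t) (by linarith) (by linarith) (by linarith)
    · simp only [pos, mul_zero, zero_add, add_zero] at h1 h2
      have hr : r = 0 := by
        rcases mul_eq_zero.1 h2.symm with h | h
        · linarith
        · exact absurd h (sgn_ne _)
      subst hr
      rcases hk with h | h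
      · rw [h] at h1
        push_cast at h1
        exact intlem' (idx k) (idx l) t t0 t1 (by linarith)
      · rw [h] at h1
        push_cast at h1
        apply flip
        exact intlem' (idx k') (idx l) (1 - t) (by linarith) (by linarith) (by linarith)
    · simp only [pos] at h1
      have hl := hxy.2
      rcases hk with h | h <;> rcases hl with g | g
      · rw [h, g] at h1
        push_cast at h1
        refine intlem (idx k) (idx l) t r t0 t1 r0 r1 ?_ (by linarith)
        intro e
        have e1 := idx_inj e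
        have e2 : k' = l' := idx_inj (by rw [h, g, e])
        subst e1 e2
        exact hne rfl
      · rw [h, g] at h1
        push_cast at h1
        refine intlem (idx k) (idx l') t (1 - r) t0 t1 (by linarith) (by linarith) ?_ (by linarith)
        intro e
        have e1 := idx_inj e
        have e2 : k' = l := idx_inj (by rw [h, g, e])
        subst e1 e2
        exact hne Sym2.eq_swap
      · rw [h, g] at h1
        push_cast at h1
        apply flip
        refine intlem (idx k') (idx l) (1 - t) r (by linarith) (by linarith) r0 r1 ?_ (by linarith)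
        intro e
        have e1 := idx_inj e
        have e2 : k = l' := idx_inj (by rw [h, g, e])
        subst e1 e2
        exact hne Sym2.eq_swap
      · rw [h, g] at h1
        push_cast at h1
        apply flip
        refine intlem (idx k') (idx l') (1 - t) (1 - r) (by linarith) (by linarith) (by linarith)
          (by linarith) ?_ (by linarith)
        intro e
        have e1 := idx_inj e
        have e2 : k = l := idx_inj (by rw [h, g, e])
        subst e1 e2
        exact hne rfl

/-- no edge passes through a vertex -/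
lemma vert_real (u v w : V) (huv : G.Adj u v)
    (t : ℝ) (t0 : 0 ≤ t) (t1 : t ≤ 1)
    (h1 : (1 - t) * (pos u).1 + t * (pos v).1 = (pos w).1)
    (h2 : (1 - t) * (pos u).2 + t * (pos v).2 = (pos w).2) :
    t = 0 ∨ t = 1 := by
  have flip : ∀ t : ℝ, (1 - t = 0 ∨ 1 - t = 1) → (t = 0 ∨ t = 1) := by
    rintro t (h | h)
    · right; linarith
    · left; linarith
  rcases u with s | k <;> rcases v with s' | k'
  · exact absurd huv id
  · rcases w with a | l
    · simp only [pos, mul_zero, zero_add, add_zero] at h1 h2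
      cases s <;> cases a <;> simp only [sgn] at h2 <;> norm_num at h2 <;>
        first | (left; linarith) | (exfalso; linarith)
    · simp only [pos, mul_zero, zero_add, add_zero] at h1 h2
      rcases mul_eq_zero.1 h2 with h | h
      · right; linarith
      · exact absurd h (sgn_ne _)
  · rcases w with a | l
    · simp only [pos, mul_zero, zero_add, add_zero] at h1 h2
      cases s' <;> cases a <;> simp only [sgn] at h2 <;> norm_num at h2 <;>
        first | (right; linarith) | (exfalso; linarith)
    · simp only [pos, mul_zero, zero_add, add_zero] at h1 h2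
      rcases mul_eq_zero.1 h2 with h | h
      · left; linarith
      · exact absurd h (sgn_ne _)
  · have hk := huv.2
    rcases w with a | l
    · simp only [pos, mul_zero, zero_add, add_zero] at h1 h2
      exact absurd h2.symm (sgn_ne _)
    · simp only [pos, mul_zero, zero_add, add_zero] at h1 h2
      rcases hk with h | h
      · rw [h] at h1
        push_cast at h1
        exact intlem' (idx k) (idx l) t t0 t1 (by linarith)
      · rw [h] at h1
        push_cast at h1
        apply flip
        exact intlem' (idx k') (idx l) (1 - t) (by linarith) (by linarith) (by linarith)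

lemma unit_of {t : unitInterval} (h : (t : ℝ) = 0 ∨ (t : ℝ) = 1) : t = 0 ∨ t = 1 := by
  rcases h with h | h
  · left; exact Subtype.ext h
  · right; exact Subtype.ext h

theorem planar : ∃ (p : V → ℝ × ℝ) (γ : V → V → unitInterval → ℝ × ℝ),
      Function.Injective p ∧
      (∀ u v, G.Adj u v →
        Continuous (γ u v) ∧ Function.Injective (γ u v) ∧
        γ u v 0 = p u ∧ γ u v 1 = p v ∧
        (∀ w t, γ u v t = p w → t = 0 ∨ t = 1)) ∧
      (∀ u v x y, G.Adj u v → G.Adj x y → s(u, v) ≠ s(x, y) →
        ∀ t r, γ u v t = γ x y r → t = 0 ∨ t = 1) := by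
  refine ⟨pos, seg, pos_inj, ?_, ?_⟩
  · intro u v huv
    refine ⟨seg_cont u v, seg_inj u v huv.ne, seg_zero u v, seg_one u v, ?_⟩
    intro w t h
    simp only [seg, Prod.ext_iff] at h
    exact unit_of (vert_real u v w huv t t.2.1 t.2.2 h.1 h.2)
  · intro u v x y huv hxy hne t r h
    simp only [seg, Prod.ext_iff] at h
    exact unit_of (cross_real u v x y huv hxy hne t r t.2.1 t.2.2 r.2.1 r.2.2 h.1 h.2)

def col : V → Fin 3
  | .inl _ => 2
  | .inr k => if k.2 = 1 then 1 else 0

theorem colorable : G.Colorable 3 := by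
  refine ⟨SimpleGraph.Coloring.mk col ?_⟩
  rintro (s | ⟨c, i⟩) (s' | ⟨c', j⟩) h
  · exact absurd h id
  · simp only [col]; split_ifs <;> decide
  · simp only [col]; split_ifs <;> decide
  · obtain ⟨h1, h2⟩ := h
    simp only at h1
    subst h1
    simp only [idx] at h2
    have h3 : (j : ℕ) = i + 1 ∨ (i : ℕ) = j + 1 := by omega
    have key : ∀ i j : Fin 3, ((j : ℕ) = i + 1 ∨ (i : ℕ) = j + 1) →
        (if i = 1 then (1 : Fin 3) else 0) ≠ (if j = 1 then 1 else 0) := by decide
    exact key i j h3

/-- The correspondence. -/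
def M : V → V → Fin 3 → Fin 3 → Prop
  | .inl true, .inr k, x, y => x = k.1.1 ∧ y = 0
  | .inl false, .inr k, x, y => x = k.1.2.1 ∧ y = 1
  | .inr k, .inl true, x, y => y = k.1.1 ∧ x = 0
  | .inr k, .inl false, x, y => y = k.1.2.1 ∧ x = 1
  | .inr _, .inr _, x, y => x = 2 ∧ y = 2
  | .inl _, .inl _, _, _ => False

lemma M_symm (u v : V) (i j : Fin 3) : M u v i j ↔ M v u j i := by
  rcases u with (_ | _) | k <;> rcases v with (_ | _) | l <;> simp [M, and_comm]

lemma M_match (u v : V) (i j k : Fin 3) (h : M u v i j) (h' : M u v i k) : j = k := by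
  rcases u with (_ | _) | a <;> rcases v with (_ | _) | b <;> simp_all [M]

theorem no_colouring : ¬ ∃ φ : V → Fin 3, ∀ v u w,
        G.Adj v u → M v u (φ v) (φ u) →
        G.Adj v w → M v w (φ v) (φ w) → u = w := by
  rintro ⟨φ, h⟩
  set a := φ (.inl true) with ha
  set b := φ (.inl false) with hb
  -- in every copy some path vertex has colour 0 or 1
  have key : ∀ t : Fin 3, ∃ i : Fin 3, φ (.inr ((a, b, t), i)) = 0 ∨ φ (.inr ((a, b, t), i)) = 1 := by
    intro t
    by_contra hc
    push Not at hc
    have h2 : ∀ i, φ (.inr ((a, b, t), i)) = 2 := by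
      intro i
      have := hc i
      generalize φ (.inr ((a, b, t), i)) = z at this ⊢
      revert z
      decide
    have adj1 : G.Adj (.inr ((a, b, t), 1)) (.inr ((a, b, t), 0)) :=
      ⟨rfl, Or.inr (by simp [idx])⟩
    have adj2 : G.Adj (.inr ((a, b, t), 1)) (.inr ((a, b, t), 2)) :=
      ⟨rfl, Or.inl (by simp [idx]; ring)⟩
    have := h (.inr ((a, b, t), 1)) (.inr ((a, b, t), 0)) (.inr ((a, b, t), 2)) adj1
      ⟨h2 _, h2 _⟩ adj2 ⟨h2 _, h2 _⟩
    simp at this
  -- conflicts at the poles
  have hT : ∀ k : (Fin 3 × Fin 3 × Fin 3) × Fin 3, k.1.1 = a → φ (.inr k) = 0 →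
      M (.inl true) (.inr k) (φ (.inl true)) (φ (.inr k)) := by
    intro k hk h0
    exact ⟨by rw [hk], h0⟩
  have hF : ∀ k : (Fin 3 × Fin 3 × Fin 3) × Fin 3, k.1.2.1 = b → φ (.inr k) = 1 →
      M (.inl false) (.inr k) (φ (.inl false)) (φ (.inr k)) := by
    intro k hk h0
    exact ⟨by rw [hk], h0⟩
  choose i hi using key
  have h01 : ∀ s t : Fin 3, s ≠ t → ¬ (φ (.inr ((a, b, s), i s)) = 0 ∧ φ (.inr ((a, b, t), i t)) = 0) := by
    rintro s t hst ⟨e1, e2⟩
    have := h (.inl true) (.inr ((a, b, s), i s)) (.inr ((a, b, t), i t)) trivial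
      (hT _ rfl e1) trivial (hT _ rfl e2)
    simp at this
    exact hst this.1
  have h11 : ∀ s t : Fin 3, s ≠ t → ¬ (φ (.inr ((a, b, s), i s)) = 1 ∧ φ (.inr ((a, b, t), i t)) = 1) := by
    rintro s t hst ⟨e1, e2⟩
    have := h (.inl false) (.inr ((a, b, s), i s)) (.inr ((a, b, t), i t)) trivial
      (hF _ rfl e1) trivial (hF _ rfl e2)
    simp at this
    exact hst this.1
  have a01 := h01 0 1 (by decide)
  have a02 := h01 0 2 (by decide)
  have a12 := h01 1 2 (by decide)
  have b01 := h11 0 1 (by decide)
  have b02 := h11 0 2 (by decide)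
  have b12 := h11 1 2 (by decide)
  have k0 := hi 0
  have k1 := hi 1
  have k2 := hi 2
  tauto

end Pool.Agent.K7.H68.DefCorr
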