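import Pool.Agent.K7.H80.EC.Stm2

/-!
# Project EC2 (MP_fb8df7_pr), job ASYU2 (helper68)
-/

set_option autoImplicit false

namespace Pool.Agent.K7.H68.ECASYU2

open Filter Pool.Agent.K7.H80.EC

theorem key (δ : ℝ) (hδ : 0 < δ) (m : ℕ) :
    (2 : ℝ) ^ ((1 - δ) * (m : ℝ)) / (4 * (1 + 2 / (δ * Real.log 2))) ≤
      (2 : ℝ) ^ (m - 1) / (2 * (2 * (m : ℝ) + 1)) := by
  have hl : 0 < Real.log 2 := Real.log_pos (by norm_num)
  set C : ℝ := 1 + 2 / (δ * Real.log 2) with hC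
  have hC1 : 1 ≤ C := by
    rw [hC]
    have : 0 ≤ 2 / (δ * Real.log 2) := by positivity
    linarith
  have hm : (0 : ℝ) ≤ m := Nat.cast_nonneg m
  have h1 : (2 : ℝ) ^ (δ * (m : ℝ)) = Real.exp (δ * m * Real.log 2) := by
    rw [Real.rpow_def_of_pos (by norm_num)]
    ring_nf
  have h2 : 1 + δ * m * Real.log 2 ≤ (2 : ℝ) ^ (δ * (m : ℝ)) := by
    rw [h1]
    have := Real.add_one_le_exp (δ * m * Real.log 2)
    linarith
  have h3 : 2 * (m : ℝ) + 1 ≤ C * (2 : ℝ) ^ (δ * (m : ℝ)) := by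
    have h4 : 2 * (m : ℝ) + 1 ≤ C * (1 + δ * m * Real.log 2) := by
      have h5 : 2 / (δ * Real.log 2) * (δ * m * Real.log 2) = 2 * m := by
        field_simp
      have h6 : 0 ≤ 2 / (δ * Real.log 2) := by positivity
      have h7 : 0 ≤ δ * m * Real.log 2 := by positivity
      rw [hC]
      nlinarith
    exact h4.trans (mul_le_mul_of_nonneg_left h2 (by linarith))
  have h4 : (2 : ℝ) ^ m ≤ 2 * (2 : ℝ) ^ (m - 1) := by
    rcases Nat.eq_zero_or_pos m with h | h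
    · subst h; norm_num
    · obtain ⟨n, rfl⟩ : ∃ n, m = n + 1 := ⟨m - 1, by omega⟩
      rw [Nat.add_sub_cancel, pow_succ]
      linarith
  have h5 : (2 : ℝ) ^ ((1 - δ) * (m : ℝ)) * (2 : ℝ) ^ (δ * (m : ℝ)) = (2 : ℝ) ^ m := by
    rw [← Real.rpow_add (by norm_num), ← Real.rpow_natCast]
    congr 1
    ring
  have hp : 0 < (2 : ℝ) ^ ((1 - δ) * (m : ℝ)) := Real.rpow_pos_of_pos (by norm_num) _
  rw [div_le_div_iff₀ (by linarith) (by linarith)]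
  calc (2 : ℝ) ^ ((1 - δ) * (m : ℝ)) * (2 * (2 * (m : ℝ) + 1))
      ≤ (2 : ℝ) ^ ((1 - δ) * (m : ℝ)) * (2 * (C * (2 : ℝ) ^ (δ * (m : ℝ)))) := by
        apply mul_le_mul_of_nonneg_left _ hp.le
        linarith
    _ = 2 * C * ((2 : ℝ) ^ ((1 - δ) * (m : ℝ)) * (2 : ℝ) ^ (δ * (m : ℝ))) := by ring
    _ = 2 * C * (2 : ℝ) ^ m := by rw [h5]
    _ ≤ 2 * C * (2 * (2 : ℝ) ^ (m - 1)) := mul_le_mul_of_nonneg_left h4 (by linarith)
    _ = (2 : ℝ) ^ (m - 1) * (4 * C) := by ring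

/-- the statement of the job -/
theorem t : StAsyU2 := by
  intro ε hε k hk hev
  have hl : 0 < Real.log 2 := Real.log_pos (by norm_num)
  set δ : ℝ := (ε / 2) / (4 / 3 + ε) with hδ
  have hδ0 : 0 < δ := by positivity
  have hδm : (1 - δ) * (4 / 3 + ε) = 4 / 3 + ε / 2 := by
    rw [hδ]; field_simp; ring
  have hδ1 : 0 ≤ 1 - δ := by
    by_contra h
    push Not at h
    nlinarith
  set C : ℝ := 1 + 2 / (δ * Real.log 2) with hC
  have hC1 : 0 < C := by positivity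
  set c : ℝ := (1 / 2 : ℝ) ^ (1 / 3 : ℝ) / (4 * C) with hc
  have hc0 : 0 < c := by positivity
  refine squeeze_zero' (g := fun d : ℕ => Real.exp (-(d : ℝ)))
    (Eventually.of_forall (fun d => by positivity)) ?_
    (Real.tendsto_exp_neg_atTop_nhds_zero.comp tendsto_natCast_atTop_atTop)
  have hbig : ∀ᶠ d : ℕ in atTop, (1 + Real.log 4) / c ≤ (d : ℝ) ^ (ε / 2) :=
    ((tendsto_rpow_atTop (half_pos hε)).comp tendsto_natCast_atTop_atTop).eventually_ge_atTop _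
  filter_upwards [hev, eventually_ge_atTop 1, hbig] with d h1 h2 h3
  have hd : (0 : ℝ) < d := by exact_mod_cast h2
  have h4 : (d : ℝ) ^ (4 / 3 + ε / 2) ≤ (2 : ℝ) ^ ((1 - δ) * (k d : ℝ)) := by
    have h5 : (d : ℝ) = (2 : ℝ) ^ (Real.logb 2 d) := (Real.rpow_logb (by norm_num) (by norm_num) hd).symm
    have h6 : (d : ℝ) ^ (4 / 3 + ε / 2) = (2 : ℝ) ^ (Real.logb 2 d * (4 / 3 + ε / 2)) := by
      conv_lhs => rw [h5]
      rw [← Real.rpow_mul (by norm_num)]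
    rw [h6]
    apply Real.rpow_le_rpow_of_exponent_le (by norm_num)
    rw [← hδm]
    nlinarith [mul_le_mul_of_nonneg_left h1 hδ1]
  have h5 := key δ hδ0 (k d)
  have h6 : c * ((d : ℝ) * (d : ℝ) ^ (ε / 2)) ≤
      (1 / (2 * (d : ℝ))) ^ (1 / 3 : ℝ) * (2 : ℝ) ^ (k d - 1) / (2 * (2 * k d + 1)) := by
    have h7 : (1 / (2 * (d : ℝ))) ^ (1 / 3 : ℝ) = (1 / 2 : ℝ) ^ (1 / 3 : ℝ) * (d : ℝ) ^ (-(1 / 3) : ℝ) := by
      rw [show (1 / (2 * (d : ℝ))) = (1 / 2) * (d : ℝ)⁻¹ by field_simp,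
        Real.mul_rpow (by norm_num) (by positivity), Real.inv_rpow hd.le, Real.rpow_neg hd.le]
    have h8 : (d : ℝ) * (d : ℝ) ^ (ε / 2) = (d : ℝ) ^ (-(1 / 3) : ℝ) * (d : ℝ) ^ (4 / 3 + ε / 2) := by
      rw [← Real.rpow_add hd]
      nth_rewrite 1 [← Real.rpow_one (d : ℝ)]
      rw [← Real.rpow_add hd]
      congr 1
      ring
    rw [h8, h7, mul_div_assoc]
    calc c * ((d : ℝ) ^ (-(1 / 3) : ℝ) * (d : ℝ) ^ (4 / 3 + ε / 2))
        = (1 / 2 : ℝ) ^ (1 / 3 : ℝ) * (d : ℝ) ^ (-(1 / 3) : ℝ) * ((d : ℝ) ^ (4 / 3 + ε / 2) / (4 * C)) := by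
          rw [hc]; ring
      _ ≤ (1 / 2 : ℝ) ^ (1 / 3 : ℝ) * (d : ℝ) ^ (-(1 / 3) : ℝ) *
          ((2 : ℝ) ^ ((1 - δ) * (k d : ℝ)) / (4 * C)) := by
          apply mul_le_mul_of_nonneg_left _ (by positivity)
          exact div_le_div_of_nonneg_right h4 (by positivity)
      _ ≤ _ := mul_le_mul_of_nonneg_left h5 (by positivity)
  have h9 : (d : ℝ) * (1 + Real.log 4) ≤ c * ((d : ℝ) * (d : ℝ) ^ (ε / 2)) := by
    have h10 : 1 + Real.log 4 ≤ c * (d : ℝ) ^ (ε / 2) := by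
      rw [div_le_iff₀ hc0] at h3
      linarith
    nlinarith
  have h11 : (4 : ℝ) ^ d = Real.exp (d * Real.log 4) := by
    rw [mul_comm, Real.exp_mul, Real.exp_log (by norm_num), Real.rpow_natCast]
  rw [h11, ← Real.exp_add]
  apply Real.exp_le_exp.mpr
  linarith

end Pool.Agent.K7.H68.ECASYU2
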