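import Pool.Agent.K7.H25.GD.Stm

/-!
# Project GD (MP_619a4d_co), job DEG (helper68)
-/

set_option autoImplicit false

namespace Pool.Agent.K7.H68.GDDEG

open Pool.Agent.K7.H25.GD

theorem le {V : Type} [Finite V] (G : SimpleGraph V) (hG : Two G) (u v z : V) (huv : u ≠ v)
    (hn : ¬ G.Adj u v) (huz : G.Adj u z) (hvz : G.Adj v z) :
    (G.neighborSet u \ line G u z).ncard ≤ (G.neighborSet v \ line G v z).ncard := by
  classical
  obtain ⟨hL, hT⟩ := hG
  have h1 : ∀ a, a ∈ G.neighborSet u \ line G u z → ∃ b, G.Adj a b ∧ G.Adj v b := by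
    rintro a ⟨ha, hal⟩
    rw [SimpleGraph.mem_neighborSet] at ha
    have hav : a ≠ v := by
      rintro rfl; exact hn ha
    have hav' : ¬ G.Adj a v := fun h =>
      hal (Or.inr (Or.inl (hL u v a z huv hn ha h.symm huz hvz)))
    exact hT a v hav hav'
  choose! b hb1 hb2 using h1
  have hbz : ∀ a, a ∈ G.neighborSet u \ line G u z → b a ≠ z := by
    intro a ha h
    have h2 := hb1 a ha
    rw [h] at h2
    exact ha.2 (Or.inr (Or.inr ⟨ha.1, h2.symm⟩))
  have hbu : ∀ a, a ∈ G.neighborSet u \ line G u z → b a ≠ u := by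
    intro a ha h
    have h2 := hb2 a ha
    rw [h] at h2
    exact hn h2.symm
  refine Set.ncard_le_ncard_of_injOn b ?_ ?_ (Set.toFinite _)
  · intro a ha
    refine ⟨hb2 a ha, ?_⟩
    rintro (h | h | ⟨-, h⟩)
    · have h2 := hb2 a ha
      rw [h] at h2
      exact G.loopless.irrefl _ h2
    · exact hbz a ha h
    · have haz : a ≠ z := fun h3 => ha.2 (Or.inr (Or.inl h3))
      have haz' : ¬ G.Adj a z := fun h3 => ha.2 (Or.inr (Or.inr ⟨ha.1, h3.symm⟩))
      have hua : G.Adj u a := ha.1
      have h4 := hL a z u (b a) haz haz' hua.symm huz.symm (hb1 a ha) h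
      exact hbu a ha h4.symm
  · intro a ha a' ha' h
    by_contra hne
    have h2 : ¬ G.Adj u (b a) := fun h3 =>
      hbz a ha (hL u v (b a) z huv hn h3 (hb2 a ha) huz hvz)
    exact hne (hL u (b a) a a' (hbu a ha).symm h2 ha.1 (hb1 a ha).symm ha'.1
      (by rw [h]; exact (hb1 a' ha').symm))

/-- the statement of the job -/
theorem t : StDeg := by
  intro V _ G hG u v z huv hn huz hvz
  exact le_antisymm (le G hG u v z huv hn huz hvz)
    (le G hG v u z huv.symm (fun h => hn h.symm) hvz huz)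

end Pool.Agent.K7.H68.GDDEG
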