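import Pool.Agent.K7.H50.OG.Basic

/-!
# Project OG (MP_23a060_co), job SUF (helper68): double stars are 3-good
-/

set_option autoImplicit false

namespace Pool.Agent.K7.H68.OG

open Pool.Agent.K7.H50.OG

theorem enum (S : Finset ℕ) (c : ℕ) (hc : c ≤ S.card) : ∃ e : ℕ → ℕ,
    (∀ i, 1 ≤ i → i ≤ c → e i ∈ S) ∧ ∀ i j, 1 ≤ i → i < j → j ≤ c → e i < e j := by
  refine ⟨fun i => if h : i - 1 < S.card then S.orderEmbOfFin rfl ⟨i - 1, h⟩ else 0, ?_, ?_⟩
  · intro i hi hic
    have h : i - 1 < S.card := by omega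
    simp only [h, dif_pos]
    exact Finset.orderEmbOfFin_mem _ _ _
  · intro i j hi hij hj
    have h : i - 1 < S.card := by omega
    have h' : j - 1 < S.card := by omega
    simp only [h, h', dif_pos]
    rw [OrderEmbedding.lt_iff_lt, Fin.lt_def]
    simp only
    omega

theorem max_card {S : Finset ℕ} (h : S.Nonempty) :
    ∃ x ∈ S, (∀ z ∈ S, z ≤ x) ∧ (S.filter (fun z => z < x)).card + 1 = S.card := by
  refine ⟨S.max' h, S.max'_mem h, fun z hz => S.le_max' z hz, ?_⟩
  have e : S = insert (S.max' h) (S.filter (fun z => z < S.max' h)) := by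
    ext z
    simp only [Finset.mem_insert, Finset.mem_filter]
    constructor
    · intro hz
      rcases lt_or_eq_of_le (S.le_max' z hz) with h1 | h1
      · exact Or.inr ⟨hz, h1⟩
      · exact Or.inl h1
    · rintro (rfl | ⟨hz, _⟩)
      · exact S.max'_mem h
      · exact hz
  conv_rhs => rw [e]
  rw [Finset.card_insert_of_notMem]
  simp

theorem min_card {S : Finset ℕ} (h : S.Nonempty) :
    ∃ x ∈ S, (∀ z ∈ S, x ≤ z) ∧ (S.filter (fun z => x < z)).card + 1 = S.card := by
  refine ⟨S.min' h, S.min'_mem h, fun z hz => S.min'_le z hz, ?_⟩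
  have e : S = insert (S.min' h) (S.filter (fun z => S.min' h < z)) := by
    ext z
    simp only [Finset.mem_insert, Finset.mem_filter]
    constructor
    · intro hz
      rcases lt_or_eq_of_le (S.min'_le z hz) with h1 | h1
      · exact Or.inr ⟨hz, h1⟩
      · exact Or.inl h1.symm
    · rintro (rfl | ⟨hz, _⟩)
      · exact S.min'_mem h
      · exact hz
  conv_rhs => rw [e]
  rw [Finset.card_insert_of_notMem]
  simp

/-- a red clique contains everything -/
theorem cop_clique {k N : ℕ} {E R : Gr} (S : Finset ℕ) (hS : ∀ z ∈ S, 1 ≤ z ∧ z ≤ N)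
    (hR : ∀ x ∈ S, ∀ y ∈ S, x < y → R x y) (hk : k ≤ S.card) : Cop k N E R := by
  obtain ⟨e, h1, h2⟩ := enum S k hk
  refine ⟨e, fun i hi hik => hS _ (h1 i hi hik), h2, fun i j hi hij hj _ => ?_⟩
  exact hR _ (h1 i hi (by omega)) _ (h1 j (by omega) hj) (h2 i j hi hij hj)

/-- a copy of the double star -/
theorem cop_dd {k N a : ℕ} {R : Gr} (ha : 1 ≤ a) (hak : a < k) {x y : ℕ} (hx : 1 ≤ x) (hxy : x < y)
    (hy : y ≤ N) (hR : R x y) (A B : Finset ℕ) (hA : ∀ z ∈ A, 1 ≤ z ∧ z < x ∧ R z y)
    (hB : ∀ z ∈ B, z ≤ N ∧ y < z ∧ R x z) (hAc : a - 1 ≤ A.card) (hBc : k - a - 1 ≤ B.card) :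
    Cop k N (DD a) R := by
  obtain ⟨e, h1, h2⟩ := enum A (a - 1) hAc
  obtain ⟨e', h1', h2'⟩ := enum B (k - a - 1) hBc
  refine ⟨fun i => if i < a then e i else if i = a then x else if i = a + 1 then y
    else e' (i - a - 1), ?_, ?_, ?_⟩
  · intro i hi hik
    simp only
    split_ifs with c1 c2 c3
    · have := hA _ (h1 i hi (by omega))
      omega
    · omega
    · omega
    · have := hB _ (h1' (i - a - 1) (by omega) (by omega))
      omega
  · intro i j hi hij hj
    simp only
    have p1 : ∀ i, 1 ≤ i → i < a → e i < x := fun i hi hia => (hA _ (h1 i hi (by omega))).2.1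
    have p2 : ∀ i, a + 1 < i → i ≤ k → y < e' (i - a - 1) := fun i hi hia =>
      (hB _ (h1' (i - a - 1) (by omega) (by omega))).2.1
    split_ifs with c1 c2 c3 c4 c5 c6 c7 c8 c9 c10 c11 c12
    all_goals first
      | omega
      | exact h2 i j hi hij (by omega)
      | exact h2' _ _ (by omega) (by omega) (by omega)
      | (have := p1 i hi (by omega); omega)
      | (have := p2 j (by omega) hj; omega)
      | (have := p1 i hi (by omega); have := p2 j (by omega) hj; omega)
  · intro i j hi hij hj hE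
    simp only
    rcases hE with ⟨rfl, hia⟩ | ⟨rfl, haj⟩
    · rcases Nat.lt_or_ge i a with h3 | h3
      · have c1 : ¬ (a + 1 < a) := by omega
        have c2 : ¬ (a + 1 = a) := by omega
        simp only [h3, if_true, c1, c2, if_false]
        exact (hA _ (h1 i hi (by omega))).2.2
      · have c0 : i = a := by omega
        have e1 : (if i < a then e i else if i = a then x else if i = a + 1 then y
            else e' (i - a - 1)) = x := by rw [if_neg (by omega), if_pos c0]
        have e2 : (if a + 1 < a then e (a + 1) else if a + 1 = a then x else if a + 1 = a + 1 then y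
            else e' (a + 1 - a - 1)) = y := by
          rw [if_neg (by omega), if_neg (by omega), if_pos rfl]
        rw [e1, e2]
        exact hR
    · have c1 : ¬ (j < i) := by omega
      have c2 : ¬ (j = i) := by omega
      rcases Nat.lt_or_ge (i + 1) j with h3 | h3
      · have c3 : ¬ (j = i + 1) := by omega
        simp only [lt_irrefl, if_true, c1, c2, c3, if_false]
        exact (hB _ (h1' _ (by omega) (by omega))).2.2
      · have c3 : j = i + 1 := by omega
        rw [if_neg (lt_irrefl _), if_pos rfl, if_neg c1, if_neg c2, if_pos c3]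
        exact hR

theorem stSuf : StSuf := by
  classical
  intro k a ha hak R
  by_contra hcon
  rw [not_or] at hcon
  obtain ⟨hC, hBl⟩ := hcon
  obtain ⟨al, hal⟩ : ∃ al, a = al + 1 := ⟨a - 1, by omega⟩
  obtain ⟨be, hbe⟩ : ∃ be, k = a + 1 + be := ⟨k - a - 1, by omega⟩
  set N := (3 - 1) * (k - 1) + 1 with hN
  have hN' : N = 2 * (al + be + 1) + 1 := by omega
  clear_value N
  -- no blue triangle
  have hB : ∀ x y z, 1 ≤ x → x < y → y < z → z ≤ N → R x y ∨ R y z ∨ R x z := by
    intro x y z hx hxy hyz hz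
    by_contra h
    rw [not_or, not_or] at h
    apply hBl
    refine ⟨fun i => if i = 1 then x else if i = 2 then y else z, ?_, ?_⟩
    · intro i hi hi3
      simp only
      split_ifs <;> omega
    · intro i j hi hij hj
      have : (i = 1 ∧ j = 2) ∨ (i = 1 ∧ j = 3) ∨ (i = 2 ∧ j = 3) := by omega
      rcases this with ⟨rfl, rfl⟩ | ⟨rfl, rfl⟩ | ⟨rfl, rfl⟩
      · simpa using ⟨hxy, h.1⟩
      · simpa using ⟨by omega, h.2.2⟩
      · simpa using ⟨hyz, h.2.1⟩
  -- no double star
  have hD : ∀ x y, 1 ≤ x → x < y → y ≤ N → R x y →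
      al ≤ ((Finset.Icc 1 N).filter (fun z => z < x ∧ R z y)).card →
      ((Finset.Icc 1 N).filter (fun z => y < z ∧ R x z)).card < be := by
    intro x y hx hxy hy hR h1
    by_contra h2
    apply hC
    refine cop_dd ha hak hx hxy hy hR ((Finset.Icc 1 N).filter (fun z => z < x ∧ R z y))
      ((Finset.Icc 1 N).filter (fun z => y < z ∧ R x z)) ?_ ?_ (by omega) (by omega)
    · intro z hz
      rw [Finset.mem_filter, Finset.mem_Icc] at hz
      exact ⟨hz.1.1, hz.2.1, hz.2.2⟩
    · intro z hz
      rw [Finset.mem_filter, Finset.mem_Icc] at hz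
      exact ⟨hz.1.2, hz.2.1, hz.2.2⟩
  -- cliques
  have hcl : ∀ S : Finset ℕ, (∀ z ∈ S, 1 ≤ z ∧ z ≤ N) → (∀ x ∈ S, ∀ y ∈ S, x < y → R x y) →
      S.card ≤ al + be + 1 := by
    intro S h1 h2
    by_contra h3
    exact hC (cop_clique S h1 h2 (by omega))
  -- blue neighbours form a red clique
  have hbl : ∀ v x y, 1 ≤ v → v ≤ N → 1 ≤ x → x < y → y ≤ N →
      ((x < v ∧ ¬ R x v) ∨ (v < x ∧ ¬ R v x)) → ((y < v ∧ ¬ R y v) ∨ (v < y ∧ ¬ R v y)) →
      R x y := by
    intro v x y hv hvN hx hxy hy h1 h2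
    rcases h1 with ⟨h1, h1'⟩ | ⟨h1, h1'⟩ <;> rcases h2 with ⟨h2, h2'⟩ | ⟨h2, h2'⟩
    · rcases hB x y v hx hxy h2 hvN with h | h | h
      · exact h
      · exact absurd h h2'
      · exact absurd h h1'
    · rcases hB x v y hx h1 h2 hy with h | h | h
      · exact absurd h h1'
      · exact absurd h h2'
      · exact h
    · omega
    · rcases hB v x y hv h1 hxy hy with h | h | h
      · exact absurd h h1'
      · exact h
      · exact absurd h h2'
  have cR : ∀ v, v ≤ N → ((Finset.Icc 1 N).filter (fun z => v < z)).card = N - v := by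
    intro v hv
    have : (Finset.Icc 1 N).filter (fun z => v < z) = Finset.Icc (v + 1) N := by
      ext z; simp only [Finset.mem_filter, Finset.mem_Icc]; omega
    rw [this, Nat.card_Icc]; omega
  have cL : ∀ v, 1 ≤ v → v ≤ N + 1 → ((Finset.Icc 1 N).filter (fun z => z < v)).card = v - 1 := by
    intro v hv hv'
    have : (Finset.Icc 1 N).filter (fun z => z < v) = Finset.Icc 1 (v - 1) := by
      ext z; simp only [Finset.mem_filter, Finset.mem_Icc]; omega
    rw [this, Nat.card_Icc]; omega
  -- splitting into red and blue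
  have sp : ∀ (P Q : ℕ → Prop) [DecidablePred P] [DecidablePred Q], ((Finset.Icc 1 N).filter (fun z => P z ∧ Q z)).card +
      ((Finset.Icc 1 N).filter (fun z => P z ∧ ¬ Q z)).card =
      ((Finset.Icc 1 N).filter (fun z => P z)).card := by
    intro P Q _ _
    rw [← Finset.card_filter_add_card_filter_not (s := (Finset.Icc 1 N).filter (fun z => P z)) Q,
      Finset.filter_filter, Finset.filter_filter]
  -- the degrees
  have hdeg : ∀ v, 1 ≤ v → v ≤ N → al + be + 1 ≤
      ((Finset.Icc 1 N).filter (fun z => z < v ∧ R z v)).card +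
      ((Finset.Icc 1 N).filter (fun z => v < z ∧ R v z)).card := by
    intro v hv hvN
    have h1 := sp (fun z => z < v) (fun z => R z v)
    have h2 := sp (fun z => v < z) (fun z => R v z)
    rw [cL v hv (by omega)] at h1
    rw [cR v hvN] at h2
    have h3 := hcl ((Finset.Icc 1 N).filter (fun z => z < v ∧ ¬ R z v) ∪
      (Finset.Icc 1 N).filter (fun z => v < z ∧ ¬ R v z)) (by
        intro z hz
        simp only [Finset.mem_union, Finset.mem_filter, Finset.mem_Icc] at hz
        rcases hz with hz | hz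
        · exact hz.1
        · exact hz.1) (by
        intro x hx y hy hxy
        simp only [Finset.mem_union, Finset.mem_filter, Finset.mem_Icc] at hx hy
        refine hbl v x y hv hvN ?_ hxy ?_ ?_ ?_
        · rcases hx with hx | hx
          · exact hx.1.1
          · exact hx.1.1
        · rcases hy with hy | hy
          · exact hy.1.2
          · exact hy.1.2
        · rcases hx with hx | hx
          · exact Or.inl hx.2
          · exact Or.inr hx.2
        · rcases hy with hy | hy
          · exact Or.inl hy.2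
          · exact Or.inr hy.2)
    rw [Finset.card_union_of_disjoint (by
      rw [Finset.disjoint_left]
      intro z hz hz'
      simp only [Finset.mem_filter, Finset.mem_Icc] at hz hz'
      omega)] at h3
    omega
  -- the point `p`
  obtain ⟨p, hpm, hpmax, -⟩ := max_card (S := (Finset.Icc 1 N).filter (fun v =>
    be + 1 ≤ ((Finset.Icc 1 N).filter (fun z => v < z ∧ R v z)).card)) (by
      refine ⟨1, ?_⟩
      rw [Finset.mem_filter, Finset.mem_Icc]
      refine ⟨⟨le_rfl, by omega⟩, ?_⟩
      have h1 := hdeg 1 le_rfl (by omega)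
      have h2 : ((Finset.Icc 1 N).filter (fun z => z < 1 ∧ R z 1)) = ∅ := by
        ext z
        simp only [Finset.mem_filter, Finset.mem_Icc, Finset.notMem_empty, iff_false]
        omega
      rw [h2, Finset.card_empty] at h1
      omega)
  rw [Finset.mem_filter, Finset.mem_Icc] at hpm
  obtain ⟨⟨hp1, hpN⟩, hpg⟩ := hpm
  have hpg' : ∀ v, p < v → v ≤ N → ((Finset.Icc 1 N).filter (fun z => v < z ∧ R v z)).card ≤ be := by
    intro v hv hvN
    by_contra h
    have := hpmax v (by
      rw [Finset.mem_filter, Finset.mem_Icc]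
      exact ⟨⟨by omega, hvN⟩, by omega⟩)
    omega
  -- red cliques above `p`
  have hcp : ∀ S : Finset ℕ, (∀ z ∈ S, p < z ∧ z ≤ N) → (∀ x ∈ S, ∀ y ∈ S, x < y → R x y) →
      S.card ≤ be + 1 := by
    intro S h1 h2
    rcases S.eq_empty_or_nonempty with rfl | hne
    · simp
    · obtain ⟨x, hx, hmin, hc⟩ := min_card hne
      have h3 := hpg' x (h1 x hx).1 (h1 x hx).2
      have h4 : (S.filter (fun z => x < z)).card ≤
          ((Finset.Icc 1 N).filter (fun z => x < z ∧ R x z)).card := by
        apply Finset.card_le_card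
        intro z hz
        rw [Finset.mem_filter] at hz
        rw [Finset.mem_filter, Finset.mem_Icc]
        have := h1 z hz.1
        exact ⟨⟨by omega, this.2⟩, hz.2, h2 x hx z hz.1 hz.2⟩
      omega
  -- step 1: `p ≥ 2 al + 2`
  have hpN' : p < N := by
    by_contra h
    have : ((Finset.Icc 1 N).filter (fun z => p < z ∧ R p z)) = ∅ := by
      ext z
      simp only [Finset.mem_filter, Finset.mem_Icc, Finset.notMem_empty, iff_false]
      omega
    rw [this, Finset.card_empty] at hpg
    omega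
  have hp2 : 2 * al + 2 ≤ p := by
    have h1 := hdeg (p + 1) (by omega) (by omega)
    have h2 := hpg' (p + 1) (by omega) (by omega)
    obtain ⟨x, hx, hxmax, hxc⟩ := max_card
      (S := (Finset.Icc 1 N).filter (fun z => z < p + 1 ∧ R z (p + 1))) (by
        rw [← Finset.card_pos]; omega)
    rw [Finset.mem_filter, Finset.mem_Icc] at hx
    obtain ⟨⟨hx1, hxN⟩, hxp, hxR⟩ := hx
    have h3 : (((Finset.Icc 1 N).filter (fun z => z < p + 1 ∧ R z (p + 1))).filter
        (fun z => z < x)).card ≤ ((Finset.Icc 1 N).filter (fun z => z < x ∧ R z (p + 1))).card := by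
      apply Finset.card_le_card
      intro z hz
      simp only [Finset.mem_filter, Finset.mem_Icc] at hz ⊢
      exact ⟨hz.1.1, hz.2, hz.1.2.2⟩
    have h4 := hD x (p + 1) hx1 hxp (by omega) hxR (by omega)
    have h5 := sp (fun z => p + 1 < z) (fun z => R x z)
    rw [cR (p + 1) (by omega)] at h5
    have h6 := hcp ((Finset.Icc 1 N).filter (fun z => p + 1 < z ∧ ¬ R x z)) (by
      intro z hz
      rw [Finset.mem_filter, Finset.mem_Icc] at hz
      omega) (by
      intro z hz w hw hzw
      rw [Finset.mem_filter, Finset.mem_Icc] at hz hw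
      exact hbl x z w hx1 hxN hz.1.1 hzw hw.1.2 (Or.inr ⟨by omega, hz.2.2⟩)
        (Or.inr ⟨by omega, hw.2.2⟩))
    omega
  -- step 2: `y`
  obtain ⟨y, hy, hymin, hyc⟩ := min_card
    (S := (Finset.Icc 1 N).filter (fun z => p < z ∧ R p z)) (by
      rw [← Finset.card_pos]; omega)
  rw [Finset.mem_filter, Finset.mem_Icc] at hy
  obtain ⟨⟨hy1, hyN⟩, hpy, hpyR⟩ := hy
  have hM : ((Finset.Icc 1 N).filter (fun z => z < p ∧ R z y)).card < al := by
    by_contra h
    have h1 := hD p y hp1 hpy hyN hpyR (by omega)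
    have h2 : (((Finset.Icc 1 N).filter (fun z => p < z ∧ R p z)).filter (fun z => y < z)).card ≤
        ((Finset.Icc 1 N).filter (fun z => y < z ∧ R p z)).card := by
      apply Finset.card_le_card
      intro z hz
      simp only [Finset.mem_filter, Finset.mem_Icc] at hz ⊢
      exact ⟨hz.1.1, hz.2, hz.1.2.2⟩
    omega
  -- the clique `K`
  set K := (Finset.Icc 1 N).filter (fun z => z < p ∧ ¬ R z y) with hK
  have hKmem : ∀ z, z ∈ K ↔ (1 ≤ z ∧ z ≤ N) ∧ z < p ∧ ¬ R z y := by
    intro z
    rw [hK, Finset.mem_filter, Finset.mem_Icc]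
  have hKcl : ∀ x ∈ K, ∀ z ∈ K, x < z → R x z := by
    intro x hx z hz hxz
    rw [hKmem] at hx hz
    exact hbl y x z hy1 hyN hx.1.1 hxz hz.1.2 (Or.inl ⟨by omega, hx.2.2⟩)
      (Or.inl ⟨by omega, hz.2.2⟩)
  have hKc : al + 2 ≤ K.card := by
    have h1 := sp (fun z => z < p) (fun z => R z y)
    rw [cL p hp1 (by omega), ← hK] at h1
    omega
  -- `k1`
  obtain ⟨t, ht, -, htc⟩ := max_card (S := K) (by rw [← Finset.card_pos]; omega)
  obtain ⟨k1, hk1, hk1min, -⟩ := min_card
    (S := K.filter (fun v => al + 1 ≤ (K.filter (fun z => z < v)).card))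
    ⟨t, by rw [Finset.mem_filter]; exact ⟨ht, by omega⟩⟩
  rw [Finset.mem_filter] at hk1
  obtain ⟨hk1K, hk1c⟩ := hk1
  obtain ⟨k0, hk0, hk0max, hk0c⟩ := max_card (S := K.filter (fun z => z < k1)) (by
    rw [← Finset.card_pos]; omega)
  rw [Finset.mem_filter] at hk0
  obtain ⟨hk0K, hk01⟩ := hk0
  have e0 : (K.filter (fun z => z < k1)).filter (fun z => z < k0) = K.filter (fun z => z < k0) := by
    ext z
    simp only [Finset.mem_filter]
    constructor
    · rintro ⟨⟨h1, _⟩, h2⟩
      exact ⟨h1, h2⟩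
    · rintro ⟨h1, h2⟩
      exact ⟨⟨h1, by omega⟩, h2⟩
  rw [e0] at hk0c
  have hk0c' : (K.filter (fun z => z < k0)).card < al + 1 := by
    by_contra h
    have := hk1min k0 (by rw [Finset.mem_filter]; exact ⟨hk0K, by omega⟩)
    omega
  have hk0r := (hKmem k0).1 hk0K
  have hk1r := (hKmem k1).1 hk1K
  -- `D`-freeness at `k0`, `k1`
  have h4 := hD k0 k1 hk0r.1.1 hk01 hk1r.1.2 (hKcl k0 hk0K k1 hk1K hk01) (by
    refine le_trans (show al ≤ (K.filter (fun z => z < k0)).card by omega) ?_
    apply Finset.card_le_card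
    intro z hz
    rw [Finset.mem_filter] at hz
    rw [Finset.mem_filter, Finset.mem_Icc]
    exact ⟨((hKmem z).1 hz.1).1, hz.2, hKcl z hz.1 k1 hk1K (by omega)⟩)
  have h5 := sp (fun z => k1 < z) (fun z => R k0 z)
  rw [cR k1 hk1r.1.2] at h5
  -- the position of `k1`
  have h6 := sp (fun z => z < k1) (fun z => R z y)
  rw [cL k1 hk1r.1.1 (by omega)] at h6
  have e1 : (Finset.Icc 1 N).filter (fun z => z < k1 ∧ ¬ R z y) = K.filter (fun z => z < k1) := by
    ext z
    rw [Finset.mem_filter, Finset.mem_filter, hKmem, Finset.mem_Icc]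
    constructor
    · rintro ⟨h1, h2, h3⟩
      exact ⟨⟨h1, by omega, h3⟩, h2⟩
    · rintro ⟨⟨h1, _, h3⟩, h2⟩
      exact ⟨h1, h2, h3⟩
  rw [e1] at h6
  -- the three parts of the blue neighbours of `k0` above `k1`
  set M1 := (Finset.Icc 1 N).filter (fun z => z < k1 ∧ R z y) with hM1
  set M2 := (Finset.Icc 1 N).filter (fun z => (k1 < z ∧ z < p) ∧ R z y) with hM2
  have h7 : M1.card + M2.card ≤ ((Finset.Icc 1 N).filter (fun z => z < p ∧ R z y)).card := by
    rw [← Finset.card_union_of_disjoint (by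
      rw [Finset.disjoint_left]
      intro z hz hz'
      rw [hM1, Finset.mem_filter] at hz
      rw [hM2, Finset.mem_filter] at hz'
      omega)]
    apply Finset.card_le_card
    intro z hz
    rw [Finset.mem_union, hM1, hM2, Finset.mem_filter, Finset.mem_filter] at hz
    rw [Finset.mem_filter]
    rcases hz with hz | hz
    · exact ⟨hz.1, by omega, hz.2.2⟩
    · exact ⟨hz.1, hz.2.1.2, hz.2.2⟩
  have h8 := hcp ((Finset.Icc 1 N).filter (fun z => p < z ∧ ¬ R k0 z)) (by
      intro z hz
      rw [Finset.mem_filter, Finset.mem_Icc] at hz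
      omega) (by
      intro z hz w hw hzw
      rw [Finset.mem_filter, Finset.mem_Icc] at hz hw
      exact hbl k0 z w hk0r.1.1 hk0r.1.2 hz.1.1 hzw hw.1.2 (Or.inr ⟨by omega, hz.2.2⟩)
        (Or.inr ⟨by omega, hw.2.2⟩))
  have h9 : ((Finset.Icc 1 N).filter (fun z => k1 < z ∧ ¬ R k0 z)).card ≤ M2.card + 1 +
      ((Finset.Icc 1 N).filter (fun z => p < z ∧ ¬ R k0 z)).card := by
    refine le_trans (Finset.card_le_card (t := (M2 ∪ {p}) ∪
      (Finset.Icc 1 N).filter (fun z => p < z ∧ ¬ R k0 z)) ?_) ?_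
    · intro z hz
      rw [Finset.mem_filter, Finset.mem_Icc] at hz
      rw [Finset.mem_union, Finset.mem_union, hM2, Finset.mem_filter, Finset.mem_filter,
        Finset.mem_singleton, Finset.mem_Icc]
      rcases lt_trichotomy z p with h | h | h
      · left; left
        refine ⟨hz.1, ⟨hz.2.1, h⟩, ?_⟩
        by_contra hzy
        have hzK : z ∈ K := (hKmem z).2 ⟨hz.1, h, hzy⟩
        exact hz.2.2 (hKcl k0 hk0K z hzK (by omega))
      · left; right
        exact h
      · right
        exact ⟨hz.1, h, hz.2.2⟩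
    · refine (Finset.card_union_le _ _).trans ?_
      have := Finset.card_union_le M2 {p}
      rw [Finset.card_singleton] at this
      omega
  omega

end Pool.Agent.K7.H68.OG
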