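import Mathlib

/-!
# A rational partial correlation matrix all of whose psd completions are irrational

The graph is the circulant graph on `ℤ/10` with connection set `{±1, ±2, 5}` and the prescribed
entries are `3/4` (difference `±1`), `1/4` (difference `±2`) and `0` (difference `5`).  The
circulant completion with entry `(2 - √5)/4` at the differences `±3, ±4` is positive semidefinite
of rank `5`.  Testing an arbitrary completion against the projections onto the Fourier modes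
`±3`, `±4` and `5` shows that no completion is rational.
-/

set_option autoImplicit false

open Matrix Finset

namespace Pool.Agent.K7.H68.RationalCompletion

/-- A real symmetric idempotent matrix is positive semidefinite. -/
lemma psd_of_proj {n : ℕ} {P : Matrix (Fin n) (Fin n) ℝ} (h1 : Pᴴ = P) (h2 : P * P = P) :
    P.PosSemidef := by
  have h := posSemidef_conjTranspose_mul_self P
  rwa [h1, h2] at h

/-- The trace of the product of a projection and a positive semidefinite matrix is nonnegative. -/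
lemma trace_proj {n : ℕ} {P Y : Matrix (Fin n) (Fin n) ℝ} (h1 : Pᴴ = P) (h2 : P * P = P)
    (hY : Y.PosSemidef) : 0 ≤ (P * Y).trace := by
  have h := (hY.conjTranspose_mul_mul_same P).trace_nonneg
  have e : (Pᴴ * Y * P).trace = (P * Y).trace := by
    rw [h1, Matrix.trace_mul_comm, ← Matrix.mul_assoc, h2]
  rwa [e] at h

noncomputable section tables

variable (a : ℝ)

/-- the tables of `cos (2 π t d / 10)`, `a = cos (π / 5)`; `cos (2 π / 5) = a - 1/2`. -/
def t0 : Fin 10 → ℝ := ![1, 1, 1, 1, 1, 1, 1, 1, 1, 1]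
def t1 : Fin 10 → ℝ := ![1, a, a - 1/2, 1/2 - a, -a, -1, -a, 1/2 - a, a - 1/2, a]
def t2 : Fin 10 → ℝ := ![1, a - 1/2, -a, -a, a - 1/2, 1, a - 1/2, -a, -a, a - 1/2]
def t3 : Fin 10 → ℝ := ![1, 1/2 - a, -a, a, a - 1/2, -1, a - 1/2, a, -a, 1/2 - a]
def t4 : Fin 10 → ℝ := ![1, -a, a - 1/2, a - 1/2, -a, 1, -a, a - 1/2, a - 1/2, -a]
def t5 : Fin 10 → ℝ := ![1, -1, 1, -1, 1, -1, 1, -1, 1, -1]

end tables

/-- circulant matrix of a table divided by `m` -/
noncomputable def proj (m : ℝ) (t : Fin 10 → ℝ) : Matrix (Fin 10) (Fin 10) ℝ :=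
  circulant (fun d => t d / m)

lemma proj_herm {m : ℝ} {t : Fin 10 → ℝ} (h : ∀ d, t (-d) = t d) : (proj m t)ᴴ = proj m t := by
  unfold proj
  rw [conjTranspose_circulant]
  congr 1
  funext d
  simp [h]

lemma proj_idem {m : ℝ} (hm : m ≠ 0) {t : Fin 10 → ℝ}
    (h : ∀ d, ∑ k, t (d - k) * t k = m * t d) : proj m t * proj m t = proj m t := by
  unfold proj
  rw [circulant_mul]
  congr 1
  funext d
  simp only [mulVec, dotProduct, circulant_apply]
  have : ∀ k, t (d - k) / m * (t k / m) = (t (d - k) * t k) / (m * m) := by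
    intro k; field_simp
  simp only [this]
  rw [← Finset.sum_div, h]
  field_simp

lemma t0_sq (d : Fin 10) : ∑ k, t0 (d - k) * t0 k = 10 * t0 d := by
  fin_cases d <;> simp [t0, Fin.sum_univ_succ] <;> norm_num

lemma t5_sq (d : Fin 10) : ∑ k, t5 (d - k) * t5 k = 10 * t5 d := by
  fin_cases d <;> simp [t5, Fin.sum_univ_succ] <;> norm_num

section sq
variable {a : ℝ} (ha : a ^ 2 = a / 2 + 1 / 4)
include ha

lemma t1_sq (d : Fin 10) : ∑ k, t1 a (d - k) * t1 a k = 5 * t1 a d := by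
  fin_cases d <;> simp [t1, Fin.sum_univ_succ] <;> nlinarith [ha]

lemma t2_sq (d : Fin 10) : ∑ k, t2 a (d - k) * t2 a k = 5 * t2 a d := by
  fin_cases d <;> simp [t2, Fin.sum_univ_succ] <;> nlinarith [ha]

lemma t3_sq (d : Fin 10) : ∑ k, t3 a (d - k) * t3 a k = 5 * t3 a d := by
  fin_cases d <;> simp [t3, Fin.sum_univ_succ] <;> nlinarith [ha]

lemma t4_sq (d : Fin 10) : ∑ k, t4 a (d - k) * t4 a k = 5 * t4 a d := by
  fin_cases d <;> simp [t4, Fin.sum_univ_succ] <;> nlinarith [ha]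

end sq

lemma t0_neg (d : Fin 10) : t0 (-d) = t0 d := by fin_cases d <;> simp [t0]
lemma t1_neg (a : ℝ) (d : Fin 10) : t1 a (-d) = t1 a d := by fin_cases d <;> simp [t1]
lemma t2_neg (a : ℝ) (d : Fin 10) : t2 a (-d) = t2 a d := by fin_cases d <;> simp [t2]
lemma t3_neg (a : ℝ) (d : Fin 10) : t3 a (-d) = t3 a d := by fin_cases d <;> simp [t3]
lemma t4_neg (a : ℝ) (d : Fin 10) : t4 a (-d) = t4 a d := by fin_cases d <;> simp [t4]
lemma t5_neg (d : Fin 10) : t5 (-d) = t5 d := by fin_cases d <;> simp [t5]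

/-- The graph. -/
def G : SimpleGraph (Fin 10) where
  Adj i j := i - j ∈ ({1, 2, 5, 8, 9} : Finset (Fin 10))
  symm := ⟨by decide⟩
  loopless := ⟨by decide⟩

/-- The prescribed values as a function of the difference. -/
def xt : Fin 10 → ℚ := ![1, 3/4, 1/4, 0, 0, 0, 0, 0, 1/4, 3/4]

/-- The prescribed values. -/
def x (i j : Fin 10) : ℚ := xt (i - j)

/-- There is a positive semidefinite completion. -/
lemma exists_completion : ∃ X : Matrix (Fin 10) (Fin 10) ℝ, X.PosSemidef ∧ (∀ i, X i i = 1) ∧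
    ∀ i j, G.Adj i j → X i j = (x i j : ℝ) := by
  obtain ⟨s, hs0, hs⟩ : ∃ s : ℝ, 0 ≤ s ∧ s ^ 2 = 5 :=
    ⟨Real.sqrt 5, Real.sqrt_nonneg 5, Real.sq_sqrt (by norm_num)⟩
  have hs3 : s ≤ 3 := by nlinarith
  obtain ⟨a, hadef⟩ : ∃ a : ℝ, a = (1 + s) / 4 := ⟨_, rfl⟩
  have ha : a ^ 2 = a / 2 + 1 / 4 := by rw [hadef]; nlinarith
  have p0 := psd_of_proj (proj_herm (m := 10) t0_neg) (proj_idem (by norm_num) t0_sq)
  have p1 := psd_of_proj (proj_herm (m := 5) (t1_neg a)) (proj_idem (by norm_num) (t1_sq ha))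
  have p2 := psd_of_proj (proj_herm (m := 5) (t2_neg a)) (proj_idem (by norm_num) (t2_sq ha))
  refine ⟨(10 * (1/2 - s/10)) • proj 10 t0 + (5 * (1/2) : ℝ) • proj 5 (t1 a)
      + (5 * (s/10)) • proj 5 (t2 a), ?_, ?_, ?_⟩
  · refine ((p0.smul ?_).add (p1.smul ?_)).add (p2.smul ?_)
    · nlinarith
    · norm_num
    · positivity
  · intro i
    simp only [Matrix.add_apply, Matrix.smul_apply, proj, circulant_apply, sub_self, smul_eq_mul]
    simp [t0, t1, t2]
    ring
  · intro i j hij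
    change i - j ∈ ({1, 2, 5, 8, 9} : Finset (Fin 10)) at hij
    simp only [Matrix.add_apply, Matrix.smul_apply, proj, circulant_apply, smul_eq_mul, x]
    generalize i - j = d at hij
    simp only [Finset.mem_insert, Finset.mem_singleton] at hij
    rcases hij with rfl | rfl | rfl | rfl | rfl <;> simp [t0, t1, t2, xt, hadef] <;> nlinarith

/-- There is no rational positive semidefinite completion. -/
lemma no_rational : ¬ ∃ Y : Matrix (Fin 10) (Fin 10) ℚ,
    (Y.map (fun q : ℚ => (q : ℝ))).PosSemidef ∧ (∀ i, Y i i = 1) ∧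
      ∀ i j, G.Adj i j → Y i j = x i j := by
  rintro ⟨Y, hY, hd, he⟩
  obtain ⟨s, hs0, hs⟩ : ∃ s : ℝ, 0 ≤ s ∧ s ^ 2 = 5 :=
    ⟨Real.sqrt 5, Real.sqrt_nonneg 5, Real.sq_sqrt (by norm_num)⟩
  have hirr : Irrational s := by
    have h5 : s = Real.sqrt 5 := by
      rw [← hs, Real.sqrt_sq hs0]
    rw [h5]
    exact_mod_cast (show Nat.Prime 5 by norm_num).irrational_sqrt
  obtain ⟨a, hadef⟩ : ∃ a : ℝ, a = (1 + s) / 4 := ⟨_, rfl⟩
  have ha : a ^ 2 = a / 2 + 1 / 4 := by rw [hadef]; nlinarith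
  have q3 := trace_proj (proj_herm (m := 5) (t3_neg a)) (proj_idem (by norm_num) (t3_sq ha)) hY
  have q4 := trace_proj (proj_herm (m := 5) (t4_neg a)) (proj_idem (by norm_num) (t4_sq ha)) hY
  have q5 := trace_proj (proj_herm (m := 10) t5_neg) (proj_idem (by norm_num) t5_sq) hY
  -- sums along the cyclic diagonals
  obtain ⟨S, hS⟩ : ∃ S : Fin 10 → ℚ, ∀ d, S d = ∑ j, Y j (j + d) := ⟨_, fun d => rfl⟩
  have tr : ∀ (m : ℝ) (t : Fin 10 → ℝ),
      (proj m t * Y.map (fun q : ℚ => (q : ℝ))).trace = ∑ d, t d / m * (S d : ℝ) := by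
    intro m t
    simp only [Matrix.trace, Matrix.diag_apply, Matrix.mul_apply, proj, circulant_apply,
      Matrix.map_apply]
    rw [Finset.sum_comm]
    have h1 : ∀ j : Fin 10, ∑ i, t (i - j) / m * ((Y j i : ℚ) : ℝ)
        = ∑ d, t d / m * ((Y j (j + d) : ℚ) : ℝ) := by
      intro j
      refine Fintype.sum_equiv (Equiv.subRight j) _ _ ?_
      intro i
      simp
    simp only [h1]
    rw [Finset.sum_comm]
    refine Finset.sum_congr rfl (fun d _ => ?_)
    rw [← Finset.mul_sum, hS]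
    push_cast
    rfl
  have hS0 : S 0 = 10 := by
    rw [hS]; simp [hd]
  have key : ∀ d : Fin 10, d ∈ ({1, 2, 5, 8, 9} : Finset (Fin 10)) → S d = 10 * xt (-d) := by
    intro d hdm
    rw [hS]
    have : ∀ j : Fin 10, Y j (j + d) = xt (-d) := by
      intro j
      have hadj : G.Adj j (j + d) := by
        show j - (j + d) ∈ ({1, 2, 5, 8, 9} : Finset (Fin 10))
        have h2 : ∀ d : Fin 10, d ∈ ({1, 2, 5, 8, 9} : Finset (Fin 10)) →
            -d ∈ ({1, 2, 5, 8, 9} : Finset (Fin 10)) := by decide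
        have h3 : j - (j + d) = -d := by abel
        rw [h3]
        exact h2 d hdm
      rw [he _ _ hadj, x]
      congr 1
      abel
    simp [this]
  have hS1 := key 1 (by decide)
  have hS2 := key 2 (by decide)
  have hS5 := key 5 (by decide)
  have hS8 := key 8 (by decide)
  have hS9 := key 9 (by decide)
  have e1 : xt (-1) = 3/4 := by decide +kernel
  have e2 : xt (-2) = 1/4 := by decide +kernel
  have e5 : xt (-5) = 0 := by decide +kernel
  have e8 : xt (-8) = 1/4 := by decide +kernel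
  have e9 : xt (-9) = 3/4 := by decide +kernel
  rw [e1] at hS1
  rw [e2] at hS2
  rw [e5] at hS5
  rw [e8] at hS8
  rw [e9] at hS9
  rw [tr] at q3 q4 q5
  simp only [Fin.sum_univ_succ, Fin.sum_univ_zero] at q3 q4 q5
  simp [t3, t4, t5, hS0, hS1, hS2, hS5, hS8, hS9] at q3 q4 q5
  obtain ⟨u, hu⟩ : ∃ u : ℚ, u = S 3 + S 7 := ⟨_, rfl⟩
  obtain ⟨v, hv⟩ : ∃ v : ℚ, v = S 4 + S 6 := ⟨_, rfl⟩
  have hu' : (u : ℝ) = (S 3 : ℝ) + (S 7 : ℝ) := by rw [hu]; push_cast; rfl
  have hv' : (v : ℝ) = (S 4 : ℝ) + (S 6 : ℝ) := by rw [hv]; push_cast; rfl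
  have h5 : 0 ≤ (v : ℝ) - u := by rw [hu', hv']; linarith
  have h3 : 0 ≤ 10 - 15 * (a - 1/2) - 5 * a + a * u + (a - 1/2) * v := by
    rw [hu', hv']; linarith
  have h4 : 0 ≤ 10 - 15 * a + 5 * (a - 1/2) + (a - 1/2) * u - a * v := by
    rw [hu', hv']; linarith
  have h4' : 0 ≤ s * (10 - 15 * a + 5 * (a - 1/2) + (a - 1/2) * u - a * v) := mul_nonneg hs0 h4
  have hsum : 2 * (10 - 15 * (a - 1/2) - 5 * a + a * u + (a - 1/2) * v)
      + 2 * (s * (10 - 15 * a + 5 * (a - 1/2) + (a - 1/2) * u - a * v))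
      + 3 * ((v : ℝ) - u) = 0 := by
    rw [hadef]
    linear_combination (-15/2 + 5/2 + (u : ℝ)/2 - (v : ℝ)/2) * hs
  have hvu : (v : ℝ) = u := by linarith
  have h30 : 10 - 15 * (a - 1/2) - 5 * a + a * u + (a - 1/2) * v = 0 := by linarith
  rw [hvu, hadef] at h30
  have hsval : s = ((2 - u / 5 : ℚ) : ℝ) := by
    push_cast
    linear_combination (s * 2 / 25) * h30 + (-(u : ℝ) / 25 + 2 / 5) * hs
  exact hirr ⟨2 - u / 5, hsval.symm⟩

end Pool.Agent.K7.H68.RationalCompletion
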